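import Pool.Agent.Lib.MP_42948a_nt.TF.P1
import Pool.Agent.Lib.MP_42948a_nt.TF.M1

/-!
# From the primes up to `d ^ (1/4 + 2 ε0)` to all primes, with the products of two primes only

`θ = ε0 / 4`, all windows are `(t, t + θ]`. `e(t) = ∑ 1/p (1 + ψ(p))` over the window. `step2` with the windows `t`, `1 + ε0 - t` and then
`1 + ε0 - t`, `t + θ` carries `e(t) ≤ 4 E / w` to `e(t + θ) ≤ 4 E / w`. Start at `t = 1/5`.
-/

namespace Pool.Agent.Lib.MP_42948a_nt.FP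

open Finset Pool.Agent.Lib.MP_42948a_nt.OA Pool.Agent.Lib.MP_42948a_nt.TQ Pool.Agent.Lib.MP_42948a_nt.TF

theorem PW_split (d : ℕ) (a b c : ℝ) : PW d a c ⊆ PW d a b ∪ PW d b c := by
  intro p hp
  rw [mem_PW] at hp
  rw [mem_union, mem_PW, mem_PW]
  by_cases h : p ≤ ⌊(d : ℝ) ^ b⌋₊
  · exact Or.inl ⟨hp.1, hp.2.1, h, hp.2.2.2⟩
  · exact Or.inr ⟨hp.1, not_le.1 h, hp.2.2.1, hp.2.2.2⟩

theorem PW_sum_split {g : ℕ → ℝ} (hg : ∀ n, 0 ≤ g n) (d : ℕ) (a b c : ℝ) :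
    ∑ p ∈ PW d a c, g p ≤ ∑ p ∈ PW d a b, g p + ∑ p ∈ PW d b c, g p := by
  have h1 : ∑ p ∈ PW d a c, g p ≤ ∑ p ∈ PW d a b ∪ PW d b c, g p :=
    Finset.sum_le_sum_of_subset_of_nonneg (PW_split d a b c) (fun n _ _ => hg n)
  have h2 := Finset.sum_union_inter (s₁ := PW d a b) (s₂ := PW d b c) (f := g)
  have h3 : 0 ≤ ∑ p ∈ PW d a b ∩ PW d b c, g p := Finset.sum_nonneg (fun n _ => hg n)
  linarith

theorem PW_self (d : ℕ) (a : ℝ) : PW d a a = ∅ := by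
  apply Finset.eq_empty_of_forall_notMem
  intro p hp
  rw [mem_PW] at hp
  omega

theorem PW_chain {g : ℕ → ℝ} (hg : ∀ n, 0 ≤ g n) {d : ℕ} (a θ B : ℝ) (J : ℕ)
    (hB : ∀ j : ℕ, j < J → ∑ p ∈ PW d (a + j * θ) (a + j * θ + θ), g p ≤ B) :
    ∑ p ∈ PW d a (a + J * θ), g p ≤ J * B := by
  induction J with
  | zero =>
    have h2 : a + ((0 : ℕ) : ℝ) * θ = a := by
      push_cast
      ring
    rw [h2, PW_self, Finset.sum_empty]
    push_cast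
    rw [zero_mul]
  | succ J ih =>
    have h1 := ih (fun j hj => hB j (by omega))
    have h2 := PW_sum_split hg d a (a + J * θ) (a + (J + 1 : ℕ) * θ)
    have h3 := hB J (by omega)
    have h4 : a + ((J + 1 : ℕ) : ℝ) * θ = a + J * θ + θ := by
      push_cast
      ring
    rw [h4] at h2 ⊢
    push_cast
    linarith

/-- dyadic windows -/
theorem PW_dyad {g : ℕ → ℝ} (hg : ∀ n, 0 ≤ g n) {d : ℕ} (a B : ℝ) (J : ℕ)
    (hB : ∀ j : ℕ, j < J → ∑ p ∈ PW d (2 ^ j * a) (2 * (2 ^ j * a)), g p ≤ B) :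
    ∑ p ∈ PW d a (2 ^ J * a), g p ≤ J * B := by
  induction J with
  | zero =>
    have h2 : (2 : ℝ) ^ 0 * a = a := by ring
    rw [h2, PW_self, Finset.sum_empty]
    push_cast
    rw [zero_mul]
  | succ J ih =>
    have h1 := ih (fun j hj => hB j (by omega))
    have h2 := PW_sum_split hg d a (2 ^ J * a) (2 ^ (J + 1) * a)
    have h3 := hB J (by omega)
    have h4 : (2 : ℝ) ^ (J + 1) * a = 2 * (2 ^ J * a) := by ring
    rw [h4] at h2 ⊢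
    push_cast
    linarith

theorem propagate4 (ε0 α : ℝ) (hε0 : 0 < ε0) (hε1 : ε0 ≤ 1 / 1000) (hα : 0 < α) (hα1 : α ≤ 1 / 20) :
    ∃ Kp E0 : ℝ, 0 < Kp ∧ 0 < E0 ∧ ∃ d0 : ℕ, ∀ d : ℕ, d0 ≤ d → ∀ ψ : (ZMod d)ˣ →* ℤˣ, ∀ E : ℝ, 0 ≤ E → E ≤ E0 →
    ∑ p ∈ PW d α (1 / 4), 1 / (p : ℝ) * (1 + rv ψ (ucl d p)) ≤ E →
    ∑ n ∈ EW d α 2 (1 + ε0) (1 + 2 * ε0), 1 / (n : ℝ) * (1 - rv ψ (ucl d n)) ≤ E →
    ∑ p ∈ PW d α (1 / 2 + ε0), 1 / (p : ℝ) * (1 + rv ψ (ucl d p)) ≤ Kp * E := by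
  obtain ⟨θ, hθ⟩ : ∃ θ : ℝ, θ = ε0 / 4 := ⟨_, rfl⟩
  have hθ0 : 0 < θ := by
    rw [hθ]
    linarith
  obtain ⟨w, hw⟩ : ∃ w : ℝ, w = Real.log (1 + θ) / 2 := ⟨_, rfl⟩
  have hw0 : 0 < w := by
    rw [hw]
    have := Real.log_pos (show (1 : ℝ) < 1 + θ by linarith)
    linarith
  have hw1 : w ≤ 1 := by
    have h1 : Real.log (1 + θ) ≤ 1 + θ - 1 := Real.log_le_sub_one_of_pos (by linarith)
    rw [hw]
    linarith
  obtain ⟨J, hJ⟩ : ∃ J : ℕ, J = ⌈(30 / 100 + ε0) / θ⌉₊ := ⟨_, rfl⟩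
  obtain ⟨d1, hd1⟩ := win α 2 w hα hw0
  refine ⟨1 + J * (4 / w), w ^ 2 / 100, by positivity, by positivity, max 1 d1, ?_⟩
  intro d hd ψ E hE0 hE1 hk0 hs2
  have hd1' : 1 ≤ d := (le_max_left _ _).trans hd
  have hwin := hd1 d ((le_max_right _ _).trans hd)
  have hg : ∀ n : ℕ, 0 ≤ 1 / (n : ℝ) * (1 + rv ψ (ucl d n)) := by
    intro n
    have h1 : (0 : ℝ) ≤ 1 + rv ψ (ucl d n) := by
      rcases rv_val ψ (ucl d n) with h2 | h2
      · rw [h2]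
        norm_num
      · rw [h2]
        norm_num
    exact mul_nonneg (by positivity) h1
  -- lower bound of the windows
  have hlow : ∀ t : ℝ, α ≤ t → t ≤ 1 → w ≤ uw d t (t + θ) := by
    intro t ht1 ht2
    have ht0 : 0 < t := by linarith
    have h1 := hwin t (t + θ) ht1 (by linarith) (by linarith)
    have h2 : Real.log (1 + θ) ≤ Real.log ((t + θ) / t) := by
      apply Real.log_le_log (by linarith)
      rw [le_div_iff₀ ht0]
      nlinarith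
    rw [abs_le] at h1
    have h3 := h1.1
    unfold uw
    have h4 : Real.log (1 + θ) = 2 * w := by
      rw [hw]
      ring
    linarith
  have h4 : 4 * E / w ≤ w / 2 := by
    rw [div_le_iff₀ hw0]
    have h1 : w / 2 * w = w ^ 2 / 2 := by ring
    rw [h1]
    have h2 : 0 ≤ w ^ 2 := sq_nonneg w
    linarith
  have hE4 : E ≤ 4 * E / w := by
    rw [le_div_iff₀ hw0]
    nlinarith
  have hstep : ∀ t t' : ℝ, 1 / 5 ≤ t → t ≤ 1 → 1 / 5 ≤ t' → t' ≤ 1 → 1 + ε0 ≤ t + t' → t + t' + 2 * θ ≤ 1 + 2 * ε0 →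
      uw d t (t + θ) + xw d ψ t (t + θ) ≤ 4 * E / w → uw d t' (t' + θ) + xw d ψ t' (t' + θ) ≤ 4 * E / w := by
    intro t t' h1 h2 h3 h5 h6 h7 h8
    exact step2 hd1' ψ α ε0 t (t + θ) t' (t' + θ) E (4 * E / w) w (by linarith) (by linarith) h6 (by linarith) hw0
      (hlow t (by linarith) h2) h4 h8 hs2
  have hall : ∀ j : ℕ, 1 / 5 + (j : ℝ) * θ ≤ 51 / 100 →
      uw d (1 / 5 + (j : ℝ) * θ) (1 / 5 + (j : ℝ) * θ + θ) + xw d ψ (1 / 5 + (j : ℝ) * θ) (1 / 5 + (j : ℝ) * θ + θ) ≤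
        4 * E / w := by
    intro j
    induction j with
    | zero =>
      intro _
      have h2 : (1 / 5 : ℝ) + ((0 : ℕ) : ℝ) * θ = 1 / 5 := by
        push_cast
        ring
      rw [h2, uw_add_xw]
      refine le_trans ?_ (hk0.trans hE4)
      exact Finset.sum_le_sum_of_subset_of_nonneg (PW_mono hd1' (by linarith) (by linarith)) (fun n _ _ => hg n)
    | succ j ih =>
      intro h1
      push_cast at h1 ⊢
      have hj0 : (0 : ℝ) ≤ j * θ := by positivity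
      have h2 := ih (by linarith)
      obtain ⟨t, ht⟩ : ∃ t : ℝ, t = 1 / 5 + (j : ℝ) * θ := ⟨_, rfl⟩
      have h3 : 1 / 5 + ((j : ℝ) + 1) * θ = t + θ := by
        rw [ht]
        ring
      rw [h3] at h1 ⊢
      rw [← ht] at h2
      have h5 := hstep t (1 + ε0 - t) (by linarith) (by linarith) (by linarith) (by linarith) (by linarith) (by linarith) h2
      exact hstep (1 + ε0 - t) (t + θ) (by linarith) (by linarith) (by linarith) (by linarith) (by linarith) (by linarith) h5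
  -- the cover
  have hJ1 : (30 / 100 + ε0) / θ ≤ (J : ℝ) := by
    rw [hJ]
    exact Nat.le_ceil _
  have hJ2 : 1 / 2 + ε0 ≤ 1 / 5 + J * θ := by
    rw [div_le_iff₀ hθ0] at hJ1
    linarith
  have hJ3 : (J : ℝ) < (30 / 100 + ε0) / θ + 1 := by
    rw [hJ]
    exact Nat.ceil_lt_add_one (by positivity)
  have hcover : ∑ p ∈ PW d (1 / 5) (1 / 5 + J * θ), 1 / (p : ℝ) * (1 + rv ψ (ucl d p)) ≤
      J * (4 * E / w) := by
    apply PW_chain (g := fun p : ℕ => 1 / (p : ℝ) * (1 + rv ψ (ucl d p))) hg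
    intro j hj
    show ∑ p ∈ PW d (1 / 5 + j * θ) (1 / 5 + j * θ + θ), 1 / (p : ℝ) * (1 + rv ψ (ucl d p)) ≤ _
    rw [← uw_add_xw]
    have hj1 : (j : ℝ) + 1 ≤ J := by exact_mod_cast hj
    have hj2 : (j : ℝ) * θ < 30 / 100 + ε0 := by
      have h6 : (j : ℝ) < (30 / 100 + ε0) / θ := by linarith
      rw [lt_div_iff₀ hθ0] at h6
      exact h6
    exact hall j (by linarith)
  have h6 := PW_sum_split hg d α (1 / 4) (1 / 2 + ε0)
  have h7 : ∑ p ∈ PW d (1 / 4) (1 / 2 + ε0), 1 / (p : ℝ) * (1 + rv ψ (ucl d p)) ≤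
      ∑ p ∈ PW d (1 / 5) (1 / 5 + J * θ), 1 / (p : ℝ) * (1 + rv ψ (ucl d p)) :=
    Finset.sum_le_sum_of_subset_of_nonneg (PW_mono hd1' (by norm_num) hJ2) (fun n _ _ => hg n)
  have h8 : (1 + (J : ℝ) * (4 / w)) * E = E + J * (4 * E / w) := by ring
  rw [h8]
  linarith

end Pool.Agent.Lib.MP_42948a_nt.FP
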