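import Pool.Agent.Lib.MP_42948a_nt.TF.T2
import Pool.Agent.Lib.MP_42948a_nt.TF.E3
import Pool.Agent.Lib.MP_42948a_nt.FP.P

/-!
# The blocked class for four primes

`c` is not a product of four primes `> d^α` below `d^B`. Window `PW d a (2a)`, `a ≥ α`, pair (primes, products of two primes) beyond `d`.
-/

namespace Pool.Agent.Lib.MP_42948a_nt.FP

open Finset Pool.Agent.Lib.MP_42948a_nt.OA Pool.Agent.Lib.MP_42948a_nt.TQ Pool.Agent.Lib.MP_42948a_nt.PS Pool.Agent.Lib.MP_42948a_nt.TF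

/-- the primes of a product of three numbers -/
theorem primes_le3 {p m n : ℕ} {D : ℝ} (hp : p ≠ 0) (hm : m ≠ 0) (hn : n ≠ 0) (h1 : (p : ℝ) ≤ D) (h2 : (m : ℝ) ≤ D) (h3 : (n : ℝ) ≤ D) :
    ∀ q : ℕ, q.Prime → q ∣ p * (m * n) → (q : ℝ) ≤ D := by
  intro q hq hqn
  have hle : ∀ k : ℕ, k ≠ 0 → q ∣ k → (q : ℝ) ≤ k := fun k hk hqk => by
    exact_mod_cast Nat.le_of_dvd (Nat.pos_of_ne_zero hk) hqk
  rcases (Nat.Prime.dvd_mul hq).mp hqn with h | h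
  · exact (hle p hp h).trans h1
  · rcases (Nat.Prime.dvd_mul hq).mp h with h | h
    · exact (hle m hm h).trans h2
    · exact (hle n hn h).trans h3

/-- one window -/
theorem blocked_win {d : ℕ} [NeZero d] {X : Finset (DirichletCharacter ℂ d)} {η Q : ℝ} {β : (ZMod d)ˣ → ℝ}
    {b : DirichletCharacter ℂ d → ℝ} (hK : Ker X η Q β b) (hη : 0 ≤ η) (τ C α ε0 a B : ℝ) (hτ : 0 ≤ τ) (haα : α ≤ a)
    (ha1 : 2 * a ≤ 1 + 2 * ε0) (hB : 2 * a + (2 + 4 * ε0) ≤ B)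
    (hX : ∀ χ, χ ∉ X → ‖Pa (PW d a (2 * a)) χ‖ ≤ τ) (hW : 0 < Wt (PW d a (2 * a)))
    (hC : ∀ (i : ℕ) (x : (ZMod d)ˣ), den (EW d α i (1 + ε0) (1 + 2 * ε0)) x ≤ C) (c : (ZMod d)ˣ)
    (hc : ∀ n : ℕ, (n : ℝ) ≤ (d : ℝ) ^ B → Rough ⌊(d : ℝ) ^ α⌋₊ n →
      ArithmeticFunction.cardFactors n = 4 → (∀ q : ℕ, q.Prime → q ∣ n → (q : ℝ) ≤ (d : ℝ) ^ (1 + 2 * ε0)) →
      (n : ZMod d) ≠ (c : ZMod d)) :
    ∑ p ∈ PW d a (2 * a), 1 / (p : ℝ) *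
      cv (sm β (EW d α 1 (1 + ε0) (1 + 2 * ε0))) (sm β (EW d α 2 (1 + ε0) (1 + 2 * ε0))) (c * (ucl d p)⁻¹) ≤
      Wt (PW d a (2 * a)) * ((2 * η + τ) * C ^ 2) := by
  have hd : 1 ≤ d := NeZero.one_le
  have hd1 : (1 : ℝ) ≤ d := by exact_mod_cast hd
  have hd0 : (0 : ℝ) < d := by linarith
  refine transfer hK hη τ C hτ _ _ _ (fun p hp => PW_coprime hp) (fun n hn => EW_coprime hn) (fun n hn => EW_coprime hn)
    hW hX (hC 1) (hC 2) c ?_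
  intro p hp m hm n hn
  have hp1 := mem_PW.mp hp
  rw [mem_EW] at hm hn
  obtain ⟨⟨hm1, hm2⟩, hm3, hm4, hm5⟩ := hm
  obtain ⟨⟨hn1, hn2⟩, hn3, hn4, hn5⟩ := hn
  have h1 : (p : ℝ) ≤ (d : ℝ) ^ (2 * a) := (Nat.le_floor_iff (Real.rpow_nonneg hd0.le _)).mp hp1.2.2.1
  have h2 : (m : ℝ) ≤ (d : ℝ) ^ (1 + 2 * ε0) := (Nat.le_floor_iff (Real.rpow_nonneg hd0.le _)).mp hm2
  have h3 : (n : ℝ) ≤ (d : ℝ) ^ (1 + 2 * ε0) := (Nat.le_floor_iff (Real.rpow_nonneg hd0.le _)).mp hn2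
  apply hc
  · push_cast
    calc (p : ℝ) * ((m : ℝ) * (n : ℝ)) ≤ (d : ℝ) ^ (2 * a) * ((d : ℝ) ^ (1 + 2 * ε0) * (d : ℝ) ^ (1 + 2 * ε0)) := by gcongr
      _ = (d : ℝ) ^ (2 * a + (2 + 4 * ε0)) := by
        rw [← Real.rpow_add hd0, ← Real.rpow_add hd0]
        congr 1
        ring
      _ ≤ (d : ℝ) ^ B := Real.rpow_le_rpow_of_exponent_le hd1 hB
  · refine Rough.mul ⟨hp1.1.pos, fun q hq hqp => ?_⟩ (Rough.mul hm3 hn3)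
    rw [(Nat.prime_dvd_prime_iff_eq hq hp1.1).mp hqp]
    exact lt_of_le_of_lt (Nat.floor_le_floor (Real.rpow_le_rpow_of_exponent_le hd1 haα)) hp1.2.1
  · rw [ArithmeticFunction.cardFactors_mul hp1.1.ne_zero (Nat.mul_ne_zero hm3.1.ne' hn3.1.ne'),
      ArithmeticFunction.cardFactors_mul hm3.1.ne' hn3.1.ne', ArithmeticFunction.cardFactors_apply_prime hp1.1, hm5, hn5]
  · exact primes_le3 hp1.1.ne_zero hm3.1.ne' hn3.1.ne' (h1.trans (Real.rpow_le_rpow_of_exponent_le hd1 ha1)) h2 h3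

/-- all dyadic windows from `d^α` to `d^(2^J α)`; the kernel is one for all -/
theorem blocked_all {d : ℕ} [NeZero d] {X : Finset (DirichletCharacter ℂ d)} {η Q : ℝ} {β : (ZMod d)ˣ → ℝ}
    {b : DirichletCharacter ℂ d → ℝ} (hK : Ker X η Q β b) (hη : 0 ≤ η) (τ C α ε0 B : ℝ) (J : ℕ) (hτ : 0 ≤ τ) (hα : 0 ≤ α)
    (hJ1 : 2 ^ J * α ≤ 1 + 2 * ε0) (hB : 2 ^ J * α + (2 + 4 * ε0) ≤ B)
    (hX : ∀ j : ℕ, j < J → ∀ χ, χ ∉ X → ‖Pa (PW d (2 ^ j * α) (2 * (2 ^ j * α))) χ‖ ≤ τ)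
    (hW : ∀ j : ℕ, j < J → 0 < Wt (PW d (2 ^ j * α) (2 * (2 ^ j * α))) ∧ Wt (PW d (2 ^ j * α) (2 * (2 ^ j * α))) ≤ 1)
    (hC : ∀ (i : ℕ) (x : (ZMod d)ˣ), den (EW d α i (1 + ε0) (1 + 2 * ε0)) x ≤ C) (c : (ZMod d)ˣ)
    (hc : ∀ n : ℕ, (n : ℝ) ≤ (d : ℝ) ^ B → Rough ⌊(d : ℝ) ^ α⌋₊ n →
      ArithmeticFunction.cardFactors n = 4 → (∀ q : ℕ, q.Prime → q ∣ n → (q : ℝ) ≤ (d : ℝ) ^ (1 + 2 * ε0)) →
      (n : ZMod d) ≠ (c : ZMod d)) :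
    ∑ p ∈ PW d α (2 ^ J * α), 1 / (p : ℝ) *
      cv (sm β (EW d α 1 (1 + ε0) (1 + 2 * ε0))) (sm β (EW d α 2 (1 + ε0) (1 + 2 * ε0))) (c * (ucl d p)⁻¹) ≤
      J * ((2 * η + τ) * C ^ 2) := by
  refine PW_dyad (g := fun p : ℕ => 1 / (p : ℝ) *
    cv (sm β (EW d α 1 (1 + ε0) (1 + 2 * ε0))) (sm β (EW d α 2 (1 + ε0) (1 + 2 * ε0))) (c * (ucl d p)⁻¹)) ?_ α
    ((2 * η + τ) * C ^ 2) J ?_
  · intro n
    refine mul_nonneg (by positivity) ?_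
    exact av_nonneg fun x => mul_nonneg (sm_nonneg hK.nonneg _ _) (sm_nonneg hK.nonneg _ _)
  · intro j hj
    have h2j : (2 : ℝ) ^ (j + 1) ≤ 2 ^ J := pow_le_pow_right₀ (by norm_num) hj
    have h2j1 : (1 : ℝ) ≤ 2 ^ j := one_le_pow₀ (by norm_num)
    have h3 : (2 : ℝ) * (2 ^ j * α) = 2 ^ (j + 1) * α := by ring
    have h4 := mul_le_mul_of_nonneg_right h2j hα
    have h1 := blocked_win hK hη τ C α ε0 (2 ^ j * α) B hτ (by nlinarith) (by rw [h3]; linarith) (by rw [h3]; linarith) (hX j hj) (hW j hj).1 hC c hc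
    refine h1.trans ?_
    have h5 : 0 ≤ (2 * η + τ) * C ^ 2 := by positivity
    have h6 := mul_le_mul_of_nonneg_right (hW j hj).2 h5
    linarith

end Pool.Agent.Lib.MP_42948a_nt.FP
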