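import Pool.Agent.Lib.MP_42948a_nt.TF.A1

/-!
# The dichotomy for the pair (primes, products of two primes)

`s = ge1 F1 (c1 / 2)`, `x' = c x⁻¹`. If `s x = 1`, `s x' = 0` then `F1 x ≥ c1/2` and `F2 x' ≥ c1/2`.
-/

namespace Pool.Agent.Lib.MP_42948a_nt.FP

open Finset Pool.Agent.Lib.MP_42948a_nt.TF

private theorem D_low {G : Type*} (F1 F2 : G → ℝ) (c1 : ℝ) (hcov : ∀ x, c1 ≤ F1 x + F2 x) (x : G) :
    (ge1 F1 (c1 / 2) x = 1 ∧ c1 / 2 ≤ F1 x) ∨ (ge1 F1 (c1 / 2) x = 0 ∧ c1 / 2 ≤ F2 x) := by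
  by_cases h : c1 / 2 ≤ F1 x
  · left
    refine ⟨?_, h⟩
    unfold ge1
    rw [if_pos h]
  · right
    refine ⟨?_, ?_⟩
    · unfold ge1
      rw [if_neg h]
    · have := hcov x
      push Not at h
      linarith

private theorem D_pw (c1 C a b u v u' v' : ℝ) (hc1 : 0 < c1) (hu : 0 ≤ u) (hv : 0 ≤ v) (hu' : 0 ≤ u') (hv' : 0 ≤ v')
    (uC : u ≤ C) (vC : v ≤ C)
    (h : (a = 1 ∧ c1 / 2 ≤ u) ∨ (a = 0 ∧ c1 / 2 ≤ v)) (h' : (b = 1 ∧ c1 / 2 ≤ u') ∨ (b = 0 ∧ c1 / 2 ≤ v')) :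
    |a - b| ≤ 4 / c1 ^ 2 * (u * v') + 4 / c1 ^ 2 * (u' * v) ∧ (1 - a) * u ≤ 2 / c1 * (u * v') + C * |a - b| ∧
      a * v ≤ 2 / c1 * (u' * v) + C * |a - b| := by
  have hk : 4 / c1 ^ 2 * (c1 / 2 * (c1 / 2)) = 1 := by
    field_simp
    norm_num
  have hk2 : 2 / c1 * (c1 / 2) = 1 := by
    field_simp
  have h4 : 0 ≤ 4 / c1 ^ 2 := by positivity
  have h2 : 0 ≤ 2 / c1 := by positivity
  have e1 : 0 ≤ u * v' := mul_nonneg hu hv'
  have e2 : 0 ≤ u' * v := mul_nonneg hu' hv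
  have p1 : 0 ≤ 4 / c1 ^ 2 * (u * v') := mul_nonneg h4 e1
  have p2 : 0 ≤ 4 / c1 ^ 2 * (u' * v) := mul_nonneg h4 e2
  have q1 : 0 ≤ 2 / c1 * (u * v') := mul_nonneg h2 e1
  have q2 : 0 ≤ 2 / c1 * (u' * v) := mul_nonneg h2 e2
  have hc2 : 0 ≤ c1 / 2 := by positivity
  rcases h with ⟨ha, hx⟩ | ⟨ha, hx⟩
  · rcases h' with ⟨hb, hx'⟩ | ⟨hb, hx'⟩
    · subst ha hb
      have r1 : v ≤ 2 / c1 * (u' * v) := by
        have h5 : 1 * v ≤ (2 / c1 * u') * v := by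
          refine mul_le_mul_of_nonneg_right ?_ hv
          rw [← hk2]
          exact mul_le_mul_of_nonneg_left hx' h2
        linarith
      refine ⟨by simpa using add_nonneg p1 p2, by simpa using q1, by simpa using r1⟩
    · subst ha hb
      have r1 : 1 ≤ 4 / c1 ^ 2 * (u * v') := by
        rw [← hk]
        exact mul_le_mul_of_nonneg_left (mul_le_mul hx hx' hc2 hu) h4
      have h5 : |(1 : ℝ) - 0| = 1 := by norm_num
      rw [h5]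
      refine ⟨by linarith, ?_, ?_⟩
      · linarith
      · linarith
  · rcases h' with ⟨hb, hx'⟩ | ⟨hb, hx'⟩
    · subst ha hb
      have r1 : 1 ≤ 4 / c1 ^ 2 * (u' * v) := by
        rw [← hk]
        exact mul_le_mul_of_nonneg_left (mul_le_mul hx' hx hc2 hu') h4
      have h5 : |(0 : ℝ) - 1| = 1 := by norm_num
      rw [h5]
      refine ⟨by linarith, ?_, ?_⟩
      · linarith
      · linarith
    · subst ha hb
      have r1 : u ≤ 2 / c1 * (u * v') := by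
        have h5 : 1 * u ≤ (2 / c1 * v') * u := by
          refine mul_le_mul_of_nonneg_right ?_ hu
          rw [← hk2]
          exact mul_le_mul_of_nonneg_left hx' h2
        linarith
      refine ⟨by simpa using add_nonneg p1 p2, by simpa using r1, by simpa using q2⟩

theorem dich4 {d : ℕ} [NeZero d] (F1 F2 : (ZMod d)ˣ → ℝ) (c1 C : ℝ) (hc1 : 0 < c1) (hC : 0 ≤ C) (n1 : ∀ x, 0 ≤ F1 x)
    (n2 : ∀ x, 0 ≤ F2 x) (u1 : ∀ x, F1 x ≤ C) (u2 : ∀ x, F2 x ≤ C) (hcov : ∀ x, c1 ≤ F1 x + F2 x) (c : (ZMod d)ˣ) :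
    av (fun x => |ge1 F1 (c1 / 2) x - ge1 F1 (c1 / 2) (c * x⁻¹)|) ≤ 8 / c1 ^ 2 * cv F1 F2 c ∧
      av (fun x => (1 - ge1 F1 (c1 / 2) x) * F1 x) ≤ (2 / c1 + 8 * C / c1 ^ 2) * cv F1 F2 c ∧
      av (fun x => ge1 F1 (c1 / 2) x * F2 x) ≤ (2 / c1 + 8 * C / c1 ^ 2) * cv F1 F2 c := by
  have hD : ∀ x : (ZMod d)ˣ, _ := fun x => D_pw c1 C (ge1 F1 (c1 / 2) x) (ge1 F1 (c1 / 2) (c * x⁻¹)) (F1 x) (F2 x) (F1 (c * x⁻¹))
    (F2 (c * x⁻¹)) hc1 (n1 x) (n2 x) (n1 _) (n2 _) (u1 x) (u2 x) (D_low F1 F2 c1 hcov x) (D_low F1 F2 c1 hcov _)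
  have a1 : av (fun x => F1 x * F2 (c * x⁻¹)) = cv F1 F2 c := rfl
  have a2 : av (fun x => F1 (c * x⁻¹) * F2 x) = cv F1 F2 c := by
    rw [← a1, ← av_inv (fun x => F1 x * F2 (c * x⁻¹)) c]
    congr 1
    funext x
    have h1 : c * (c * x⁻¹)⁻¹ = x := by rw [mul_inv, inv_inv, mul_inv_cancel_left]
    rw [h1]
  have b1 : av (fun x => |ge1 F1 (c1 / 2) x - ge1 F1 (c1 / 2) (c * x⁻¹)|) ≤ 8 / c1 ^ 2 * cv F1 F2 c := by
    refine (av_mono fun x => (hD x).1).trans (le_of_eq ?_)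
    rw [av_add, av_mul_left, av_mul_left, a1, a2]
    ring
  refine ⟨b1, ?_, ?_⟩
  · refine (av_mono fun x => (hD x).2.1).trans ?_
    rw [av_add, av_mul_left, av_mul_left, a1]
    have h1 := mul_le_mul_of_nonneg_left b1 hC
    have h2 : (2 / c1 + 8 * C / c1 ^ 2) * cv F1 F2 c = 2 / c1 * cv F1 F2 c + C * (8 / c1 ^ 2 * cv F1 F2 c) := by ring
    rw [h2]
    linarith
  · refine (av_mono fun x => (hD x).2.2).trans ?_
    rw [av_add, av_mul_left, av_mul_left, a2]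
    have h1 := mul_le_mul_of_nonneg_left b1 hC
    have h2 : (2 / c1 + 8 * C / c1 ^ 2) * cv F1 F2 c = 2 / c1 * cv F1 F2 c + C * (8 / c1 ^ 2 * cv F1 F2 c) := by ring
    rw [h2]
    linarith

end Pool.Agent.Lib.MP_42948a_nt.FP
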