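import Pool.Agent.Lib.MP_42948a_nt.TF.FB
import Pool.Agent.Lib.MP_42948a_nt.TF.FC
import Pool.Agent.Lib.MP_42948a_nt.TF.FE
import Pool.Agent.Lib.MP_42948a_nt.TF.FW
import Pool.Agent.Lib.MP_42948a_nt.TF.BR
import Pool.Agent.Lib.MP_42948a_nt.TF.U2
import Pool.Agent.Lib.MP_42948a_nt.TF.G3
import Pool.Agent.Lib.MP_42948a_nt.FP.A
import Pool.Agent.Lib.MP_42948a_nt.FP.D
import Pool.Agent.Lib.MP_42948a_nt.FP.P
import Pool.Agent.Lib.MP_42948a_nt.FP.S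

/-!
# Exactly four primes at the exponent `9/4 + ε`, every modulus, every reduced class

The final assembly, from the statement `Far` (no nonprincipal character is close to a constant `ζ` with `Re ζ ≥ -1/2` on the primes up to `d^(1/4+κ)`).
-/

namespace Pool.Agent.Lib.MP_42948a_nt.FP

open Finset Pool.Agent.Lib.MP_42948a_nt.OA Pool.Agent.Lib.MP_42948a_nt.TQ Pool.Agent.Lib.MP_42948a_nt.PS Pool.Agent.Lib.MP_42948a_nt.TF

/-- no nonprincipal character is close to a constant `ζ`, `Re ζ ≥ -1/2`, on the primes of `(d^s, d^(1/4+κ)]` -/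
def Far : Prop := ∀ κ : ℝ, 0 < κ → κ ≤ 1 / 100 → ∃ s0 : ℝ, 0 < s0 ∧ ∀ s : ℝ, 0 < s → s ≤ s0 → ∃ σ : ℝ, 0 < σ ∧ ∃ d0 : ℕ, ∀ d : ℕ, d0 ≤ d →
  ∀ [NeZero d], ∀ χ : DirichletCharacter ℂ d, χ ≠ 1 → ∀ ζ : ℂ, ‖ζ‖ = 1 → -(1 / 2) ≤ ζ.re →
    σ ≤ ∑ p ∈ PW d s (1 / 4 + κ), 1 / (p : ℝ) * ‖χ (p : ZMod d) - ζ‖ ^ 2

private theorem M_rv_one {d : ℕ} (ψ : (ZMod d)ˣ →* ℤˣ) (x : (ZMod d)ˣ) (h : rv ψ x = 1) : ψ x = 1 := by
  unfold rv at h
  have h1 : ((ψ x : ℤˣ) : ℤ) = 1 := by exact_mod_cast h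
  exact Units.ext h1

private theorem M_cv_nonneg {d : ℕ} [NeZero d] {f g : (ZMod d)ˣ → ℝ} (hf : ∀ x, 0 ≤ f x) (hg : ∀ x, 0 ≤ g x) (c : (ZMod d)ˣ) :
    0 ≤ cv f g c := av_nonneg fun x => mul_nonneg (hf x) (hg _)

/-- the four primes from the exceptional case -/
private theorem M_four {d : ℕ} (hd : 1 ≤ d) (α ε0 : ℝ) (q m1 m2 p : ℕ) (hq : q.Prime) (hm1 : m1.Prime) (hm2 : m2.Prime)
    (hp : p.Prime) (q1 : ⌊(d : ℝ) ^ α⌋₊ < q) (q2 : ⌊(d : ℝ) ^ α⌋₊ < m1) (q3 : ⌊(d : ℝ) ^ α⌋₊ < m2) (q4 : ⌊(d : ℝ) ^ α⌋₊ < p)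
    (r1 : (q : ℝ) ≤ (d : ℝ) ^ (1 + 2 * ε0)) (r2 : (m1 : ℝ) ≤ (d : ℝ) ^ (1 + 2 * ε0)) (r3 : (m2 : ℝ) ≤ (d : ℝ) ^ (2 * α))
    (r4 : (p : ℝ) ≤ (d : ℝ) ^ (2 * α)) :
    ((q * m1 * m2 * p : ℕ) : ℝ) ≤ (d : ℝ) ^ (2 + 4 * ε0 + 4 * α) ∧ Rough ⌊(d : ℝ) ^ α⌋₊ (q * m1 * m2 * p) ∧
      ArithmeticFunction.cardFactors (q * m1 * m2 * p) = 4 ∧
      ∀ l : ℕ, l.Prime → l ∣ q * m1 * m2 * p → l = q ∨ l = m1 ∨ l = m2 ∨ l = p := by
  have hd0 : (0 : ℝ) < d := by exact_mod_cast hd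
  have hR : ∀ r : ℕ, r.Prime → ⌊(d : ℝ) ^ α⌋₊ < r → Rough ⌊(d : ℝ) ^ α⌋₊ r := by
    intro r hr hr2
    refine ⟨hr.pos, fun l hl hlr => ?_⟩
    rw [(Nat.prime_dvd_prime_iff_eq hl hr).mp hlr]
    exact hr2
  refine ⟨?_, ?_, ?_, ?_⟩
  · push_cast
    calc (q : ℝ) * (m1 : ℝ) * (m2 : ℝ) * (p : ℝ) ≤
        (d : ℝ) ^ (1 + 2 * ε0) * (d : ℝ) ^ (1 + 2 * ε0) * (d : ℝ) ^ (2 * α) * (d : ℝ) ^ (2 * α) := by
          gcongr
      _ = (d : ℝ) ^ (2 + 4 * ε0 + 4 * α) := by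
          rw [← Real.rpow_add hd0, ← Real.rpow_add hd0, ← Real.rpow_add hd0]
          congr 1
          ring
  · exact Rough.mul (Rough.mul (Rough.mul (hR q hq q1) (hR m1 hm1 q2)) (hR m2 hm2 q3)) (hR p hp q4)
  · have n1 := hq.ne_zero
    have n2 := hm1.ne_zero
    have n3 := hm2.ne_zero
    have n4 := hp.ne_zero
    rw [ArithmeticFunction.cardFactors_mul (Nat.mul_ne_zero (Nat.mul_ne_zero n1 n2) n3) n4,
      ArithmeticFunction.cardFactors_mul (Nat.mul_ne_zero n1 n2) n3, ArithmeticFunction.cardFactors_mul n1 n2,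
      ArithmeticFunction.cardFactors_apply_prime hq,
      ArithmeticFunction.cardFactors_apply_prime hm1, ArithmeticFunction.cardFactors_apply_prime hm2,
      ArithmeticFunction.cardFactors_apply_prime hp]
  · intro l hl hld
    rcases (Nat.Prime.dvd_mul hl).mp hld with h | h
    · rcases (Nat.Prime.dvd_mul hl).mp h with h | h
      · rcases (Nat.Prime.dvd_mul hl).mp h with h | h
        · exact Or.inl ((Nat.prime_dvd_prime_iff_eq hl hq).mp h)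
        · exact Or.inr (Or.inl ((Nat.prime_dvd_prime_iff_eq hl hm1).mp h))
      · exact Or.inr (Or.inr (Or.inl ((Nat.prime_dvd_prime_iff_eq hl hm2).mp h)))
    · exact Or.inr (Or.inr (Or.inr ((Nat.prime_dvd_prime_iff_eq hl hp).mp h)))

/-- the lower bound of the two masses -/
theorem masses (α ε0 : ℝ) (hα : 0 < α) (hε0 : 0 < ε0) (hε1 : ε0 ≤ 1 / 1000) (hα8 : α ≤ ε0 / 8) : ∃ w : ℝ, 0 < w ∧ ∃ d0 : ℕ,
    ∀ d : ℕ, d0 ≤ d → w ≤ ∑ n ∈ EW d α 1 (1 + ε0) (1 + 2 * ε0), 1 / (n : ℝ) ∧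
      w ≤ ∑ n ∈ EW d α 2 (1 + ε0) (1 + 2 * ε0), 1 / (n : ℝ) := by
  obtain ⟨w1, hw1⟩ : ∃ w1 : ℝ, w1 = Real.log ((1 + 3 / 2 * ε0) / (1 + ε0)) / 2 := ⟨_, rfl⟩
  have hw10 : 0 < w1 := by
    rw [hw1]
    have h1 : 1 < (1 + 3 / 2 * ε0) / (1 + ε0) := by
      rw [lt_div_iff₀ (by linarith)]
      linarith
    have := Real.log_pos h1
    linarith
  have hw11 : w1 ≤ 1 := by
    rw [hw1]
    have h1 : Real.log ((1 + 3 / 2 * ε0) / (1 + ε0)) ≤ (1 + 3 / 2 * ε0) / (1 + ε0) - 1 :=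
      Real.log_le_sub_one_of_pos (by positivity)
    have h2 : (1 + 3 / 2 * ε0) / (1 + ε0) ≤ 2 := by
      rw [div_le_iff₀ (by linarith)]
      linarith
    linarith
  obtain ⟨d1, hd1⟩ := win α 2 w1 hα hw10
  obtain ⟨dT, hT⟩ := WtT α hα
  refine ⟨w1 / 40, by positivity, 1 + d1 + dT, ?_⟩
  intro d hd
  have hd1' : 1 ≤ d := by omega
  have hP : w1 ≤ ∑ n ∈ PW d (1 + ε0) (1 + 3 / 2 * ε0), 1 / (n : ℝ) := by
    have h1 := hd1 d (by omega) (1 + ε0) (1 + 3 / 2 * ε0) (by linarith) (by linarith) (by linarith)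
    have h2 := (abs_le.1 h1).1
    have h3 : Real.log ((1 + 3 / 2 * ε0) / (1 + ε0)) = 2 * w1 := by
      rw [hw1]
      ring
    linarith
  constructor
  · rw [EW_one hd1' (show α ≤ 1 + ε0 by linarith)]
    have h1 : ∑ n ∈ PW d (1 + ε0) (1 + 3 / 2 * ε0), 1 / (n : ℝ) ≤ ∑ n ∈ PW d (1 + ε0) (1 + 2 * ε0), 1 / (n : ℝ) :=
      sum_le_sum_of_subset_of_nonneg (PW_mono hd1' le_rfl (by linarith)) (fun n _ _ => by positivity)
    linarith
  · have h1 := dom d hd1' α (1 + ε0) (1 + 3 / 2 * ε0) α (2 * α) 1 le_rfl (fun _ => 1) (fun _ => zero_le_one)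
    simp only [mul_one] at h1
    rw [EW_one hd1' (show α ≤ 1 + ε0 by linarith), ← sum_mul] at h1
    have h2 : ∑ n ∈ EW d α (1 + 1) (1 + ε0 + α) (1 + 3 / 2 * ε0 + 2 * α), 1 / (n : ℝ) ≤
        ∑ n ∈ EW d α 2 (1 + ε0) (1 + 2 * ε0), 1 / (n : ℝ) :=
      sum_le_sum_of_subset_of_nonneg (EW_mono hd1' (by linarith) (by linarith)) (fun n _ _ => by positivity)
    have h3 := hT d (by omega)
    unfold Wt at h3
    have h4 : 1 / 20 * w1 ≤ (∑ p ∈ PW d α (2 * α), 1 / (p : ℝ)) * ∑ n ∈ PW d (1 + ε0) (1 + 3 / 2 * ε0), 1 / (n : ℝ) :=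
      mul_le_mul h3 hP hw10.le (by linarith)
    push_cast at h1
    linarith

/-- exactly four primes, every modulus `d ≥ d0`, every reduced class -/
theorem four_of (hFar : Far) (ε : ℝ) (hε : 0 < ε) : ∃ δ : ℝ, 0 < δ ∧ ∃ d0 : ℕ, ∀ d : ℕ, d0 ≤ d → ∀ c : (ZMod d)ˣ, ∃ n : ℕ,
    (n : ℝ) ≤ (d : ℝ) ^ (9 / 4 + ε) ∧ (∀ q : ℕ, q.Prime → q ∣ n → (d : ℝ) ^ δ < q ∧ (q : ℝ) ≤ (d : ℝ) ^ (1 + ε)) ∧
      ArithmeticFunction.cardFactors n = 4 ∧ n ≠ 0 ∧ (n : ZMod d) = (c : ZMod d) := by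
  classical
  obtain ⟨ε0, hε0d⟩ : ∃ ε0 : ℝ, ε0 = min (ε / 10) (1 / 1000) := ⟨_, rfl⟩
  have hε0 : 0 < ε0 := by
    rw [hε0d]
    exact lt_min (by positivity) (by norm_num)
  have hε01 : ε0 ≤ 1 / 1000 := by
    rw [hε0d]
    exact min_le_right _ _
  have hε0ε : ε0 ≤ ε / 10 := by
    rw [hε0d]
    exact min_le_left _ _
  obtain ⟨s0, hs0, hfar⟩ := hFar ε0 hε0 (by linarith)
  obtain ⟨κ, αE, hκ, hαE, hex⟩ := exc_end ε0 hε0 hε01
  obtain ⟨αm, hαm⟩ : ∃ αm : ℝ, αm = min (ε0 / 8) (min s0 αE) := ⟨_, rfl⟩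
  have hαm0 : 0 < αm := by
    rw [hαm]
    exact lt_min (by positivity) (lt_min hs0 hαE)
  obtain ⟨t1, ht1⟩ : ∃ t1 : ℝ, t1 = 1 / 4 + 2 * ε0 := ⟨_, rfl⟩
  have ht10 : 0 < t1 := by
    rw [ht1]
    linarith
  obtain ⟨J, hJ⟩ : ∃ J : ℕ, t1 / αm < (2 : ℝ) ^ J := pow_unbounded_of_one_lt _ (by norm_num)
  have h2J : (0 : ℝ) < 2 ^ J := by positivity
  obtain ⟨α, hαd⟩ : ∃ α : ℝ, α = t1 / 2 ^ J := ⟨_, rfl⟩
  have hα : 0 < α := by
    rw [hαd]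
    positivity
  have hαt : 2 ^ J * α = t1 := by
    rw [hαd]
    field_simp
  have hααm : α ≤ αm := by
    rw [hαd, div_le_iff₀ h2J]
    rw [div_lt_iff₀ hαm0] at hJ
    linarith
  have hα8 : α ≤ ε0 / 8 := hααm.trans (by
    rw [hαm]
    exact min_le_left _ _)
  have hαs : α ≤ s0 := hααm.trans (by
    rw [hαm]
    exact (min_le_right _ _).trans (min_le_left _ _))
  have hαE' : α ≤ αE := hααm.trans (by
    rw [hαm]
    exact (min_le_right _ _).trans (min_le_right _ _))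
  have hJ1 : 1 ≤ J := by
    by_contra h0
    have h1 : J = 0 := by omega
    rw [h1, pow_zero, one_mul] at hαt
    linarith
  have hJ0 : (0 : ℝ) < J := by exact_mod_cast hJ1
  obtain ⟨σF, hσF, dR, hF⟩ := hfar α hα hαs
  obtain ⟨dE, hE⟩ := hex α hα hαE'
  obtain ⟨h0, hh0, hcv⟩ := cover_kr α hα (by linarith)
  obtain ⟨h, hhd⟩ : ∃ h : ℝ, h = min h0 (ε0 / 8) := ⟨_, rfl⟩
  have hh : 0 < h := by
    rw [hhd]
    exact lt_min hh0 (by positivity)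
  have hhh0 : h ≤ h0 := by
    rw [hhd]
    exact min_le_left _ _
  have hh1 : h ≤ ε0 / 8 := by
    rw [hhd]
    exact min_le_right _ _
  obtain ⟨c1, hc1, hcov⟩ := hcv h hh hhh0
  obtain ⟨C, hC, dC, hden⟩ := den_bound ε0 α hε0 (by linarith) hα
  obtain ⟨dT, hT⟩ := WtT α hα
  obtain ⟨w, hw, dM, hmass⟩ := masses α ε0 hα hε0 hε01 hα8
  obtain ⟨Kp, Ep, hKp, hEp, dP, hprop⟩ := propagate4 ε0 α hε0 hε01 hα (by linarith)
  obtain ⟨Es, hEs, dS, hsig⟩ := sigma_neg ε0 hε0 hε01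
  have hC0 : 0 < C := by linarith
  -- windows
  have hlog2 : 0 < Real.log 2 := Real.log_pos (by norm_num)
  have hlog2' : Real.log 2 < 1 := by
    have := Real.log_two_lt_d9
    linarith
  obtain ⟨η0, hη0d⟩ : ∃ η0 : ℝ, η0 = min (Real.log 2 / 2) (1 - Real.log 2) := ⟨_, rfl⟩
  have hη0 : 0 < η0 := by
    rw [hη0d]
    exact lt_min (by positivity) (by linarith)
  obtain ⟨dW, hW⟩ := win α 1 η0 hα hη0
  -- the constants of the error terms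
  obtain ⟨p0, hp0d⟩ : ∃ p0 : ℝ, p0 = w / (2 * C) := ⟨_, rfl⟩
  have hp0 : 0 < p0 := by
    rw [hp0d]
    positivity
  obtain ⟨K1, hK1⟩ : ∃ K1 : ℝ, K1 = 2 / c1 + 8 * C / c1 ^ 2 := ⟨_, rfl⟩
  have hK10 : 0 < K1 := by
    rw [hK1]
    positivity
  obtain ⟨K2, hK2⟩ : ∃ K2 : ℝ, K2 = 8 / c1 ^ 2 := ⟨_, rfl⟩
  have hK20 : 0 < K2 := by
    rw [hK2]
    positivity
  -- `e = B0 t`, `E = B1 t`, `η3 = B3 t`, `η5 = B5 t`, `E6 = B6 t`
  obtain ⟨B0, hB0⟩ : ∃ B0 : ℝ, B0 = (J : ℝ) * (3 * C ^ 2) := ⟨_, rfl⟩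
  obtain ⟨B1, hB1⟩ : ∃ B1 : ℝ, B1 = K1 * (20 * B0) := ⟨_, rfl⟩
  obtain ⟨B3, hB3⟩ : ∃ B3 : ℝ, B3 = K2 * B0 := ⟨_, rfl⟩
  obtain ⟨B5, hB5⟩ : ∃ B5 : ℝ, B5 = 32 * B3 / σF := ⟨_, rfl⟩
  obtain ⟨B6, hB6⟩ : ∃ B6 : ℝ, B6 = 2 * B1 + C * B5 + C := ⟨_, rfl⟩
  obtain ⟨A, hA⟩ : ∃ A : ℝ, A = 1 + B1 + 4 * B3 + B6 := ⟨_, rfl⟩
  have hB00 : 0 < B0 := by
    rw [hB0]
    positivity
  have hB10 : 0 < B1 := by
    rw [hB1]
    positivity
  have hB30 : 0 < B3 := by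
    rw [hB3]
    positivity
  have hB50 : 0 < B5 := by
    rw [hB5]
    positivity
  have hB60 : 0 < B6 := by
    rw [hB6]
    positivity
  have hA0 : 0 < A := by
    rw [hA]
    positivity
  obtain ⟨m, hm⟩ : ∃ m : ℝ, m = min (min Ep (κ / Kp)) (min (min Es κ) (min (w / 2) (min (1 / 40) (σF * p0 / 16)))) := ⟨_, rfl⟩
  have hm0 : 0 < m := by
    rw [hm]
    exact lt_min (lt_min hEp (by positivity)) (lt_min (lt_min hEs hκ) (lt_min (by positivity) (lt_min (by norm_num) (by positivity))))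
  have hmEp : m ≤ Ep := by
    rw [hm]
    exact (min_le_left _ _).trans (min_le_left _ _)
  have hmκp : m ≤ κ / Kp := by
    rw [hm]
    exact (min_le_left _ _).trans (min_le_right _ _)
  have hmEs : m ≤ Es := by
    rw [hm]
    exact (min_le_right _ _).trans ((min_le_left _ _).trans (min_le_left _ _))
  have hmκ : m ≤ κ := by
    rw [hm]
    exact (min_le_right _ _).trans ((min_le_left _ _).trans (min_le_right _ _))
  have hmw : m ≤ w / 2 := by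
    rw [hm]
    exact (min_le_right _ _).trans ((min_le_right _ _).trans (min_le_left _ _))
  have hm40 : m ≤ 1 / 40 := by
    rw [hm]
    exact (min_le_right _ _).trans ((min_le_right _ _).trans ((min_le_right _ _).trans (min_le_left _ _)))
  have hmσ : m ≤ σF * p0 / 16 := by
    rw [hm]
    exact (min_le_right _ _).trans ((min_le_right _ _).trans ((min_le_right _ _).trans (min_le_right _ _)))
  obtain ⟨t, ht⟩ : ∃ t : ℝ, t = m / A := ⟨_, rfl⟩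
  have ht0 : 0 < t := by
    rw [ht]
    positivity
  have hAt : A * t = m := by
    rw [ht]
    field_simp
  have hAt' : t + B1 * t + 4 * (B3 * t) + B6 * t = m := by
    rw [← hAt, hA]
    ring
  have hB0t : 0 < B0 * t := mul_pos hB00 ht0
  have hB1t : 0 < B1 * t := mul_pos hB10 ht0
  have hB3t : 0 < B3 * t := mul_pos hB30 ht0
  have hB5t : 0 < B5 * t := mul_pos hB50 ht0
  have hB6t : 0 < B6 * t := mul_pos hB60 ht0
  -- few large characters in every window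
  have hfew0 : ∀ j : ℕ, ∃ mj dj : ℕ, j < J → ∀ d : ℕ, dj ≤ d → ∀ [NeZero d],
      ∀ X : Finset (DirichletCharacter ℂ d), (∀ χ ∈ X, t ≤ ‖Pa (PW d (2 ^ j * α) (2 * (2 ^ j * α))) χ‖) → X.card ≤ mj := by
    intro j
    by_cases hj : j < J
    · have h3 : (2 : ℝ) ^ (j + 1) ≤ 2 ^ J := pow_le_pow_right₀ (by norm_num) hj
      have h4 : (2 : ℝ) ^ j * α ≤ 1 / 4 := by
        have h5 := mul_le_mul_of_nonneg_right h3 hα.le
        rw [hαt, pow_succ] at h5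
        linarith
      obtain ⟨mj, dj, h6⟩ := few (2 ^ j * α) t (by positivity) h4 ht0
      exact ⟨mj, dj, fun _ => h6⟩
    · exact ⟨0, 0, fun h => absurd h hj⟩
  choose mf dF hfew using hfew0
  obtain ⟨B, hker⟩ := kernel_kr (∑ j ∈ range J, mf j) t ht0
  obtain ⟨dB, hcovB⟩ := hcov B
  refine ⟨α, hα, 1 + dR + dE + dC + dT + dM + dW + dP + dS + dB + ∑ j ∈ range J, dF j, ?_⟩
  intro d hd c
  have : NeZero d := ⟨by omega⟩
  have hd1 : 1 ≤ d := by omega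
  have hd1' : (1 : ℝ) ≤ d := by exact_mod_cast hd1
  have hd0 : (0 : ℝ) < d := by linarith
  have hdF : ∀ j, j < J → dF j ≤ d := by
    intro j hj
    have h1 : dF j ≤ ∑ j ∈ range J, dF j := single_le_sum (f := dF) (fun i _ => Nat.zero_le _) (mem_range.mpr hj)
    omega
  by_contra hno
  -- the class is blocked
  have hblk : ∀ n : ℕ, (n : ℝ) ≤ (d : ℝ) ^ (9 / 4 + 6 * ε0) → Rough ⌊(d : ℝ) ^ α⌋₊ n →
      ArithmeticFunction.cardFactors n = 4 → (∀ q : ℕ, q.Prime → q ∣ n → (q : ℝ) ≤ (d : ℝ) ^ (1 + 2 * ε0)) →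
      (n : ZMod d) ≠ (c : ZMod d) := by
    intro n hn1 hn2 hn3 hn5 hn4
    apply hno
    refine ⟨n, hn1.trans (Real.rpow_le_rpow_of_exponent_le hd1' (by linarith)), ?_, hn3, hn2.1.ne', hn4⟩
    intro q hq hqn
    exact ⟨Nat.lt_of_floor_lt (hn2.2 q hq hqn), (hn5 q hq hqn).trans (Real.rpow_le_rpow_of_exponent_le hd1' (by linarith))⟩
  have hWT := hT d (by omega)
  have hWT0 : 0 < Wt (PW d α (2 * α)) := by linarith
  obtain ⟨X, hX⟩ : ∃ X : Finset (DirichletCharacter ℂ d),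
      X = (range J).biUnion (fun j => univ.filter (fun χ => t ≤ ‖Pa (PW d (2 ^ j * α) (2 * (2 ^ j * α))) χ‖)) := ⟨_, rfl⟩
  have hXc : X.card ≤ ∑ j ∈ range J, mf j := by
    rw [hX]
    refine card_biUnion_le.trans (sum_le_sum fun j hj => ?_)
    have hj' := mem_range.mp hj
    exact hfew j hj' d (hdF j hj') _ (fun χ hχ => (mem_filter.mp hχ).2)
  have hXm : ∀ j : ℕ, j < J → ∀ χ : DirichletCharacter ℂ d, t ≤ ‖Pa (PW d (2 ^ j * α) (2 * (2 ^ j * α))) χ‖ → χ ∈ X := by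
    intro j hj χ hχ
    rw [hX, mem_biUnion]
    exact ⟨j, mem_range.mpr hj, mem_filter.mpr ⟨mem_univ _, hχ⟩⟩
  obtain ⟨S, hS, hSB, hKer⟩ := hker d X hXc
  have hβ := hKer.nonneg
  have hcov1 : ∀ x : (ZMod d)ˣ, c1 ≤ sm (kr S) (EW d α 1 (1 + ε0) (1 + ε0 + h)) x + sm (kr S) (EW d α 2 (1 + ε0) (1 + ε0 + h)) x :=
    fun x => hcovB d (by omega) S hS hSB (1 + ε0) (by linarith) (by linarith) x
  have hCd : ∀ (i : ℕ) (x : (ZMod d)ˣ), den (EW d α i (1 + ε0) (1 + 2 * ε0)) x ≤ C := hden d (by omega)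
  -- the weights of the windows
  have hWj : ∀ j : ℕ, j < J → 0 < Wt (PW d (2 ^ j * α) (2 * (2 ^ j * α))) ∧ Wt (PW d (2 ^ j * α) (2 * (2 ^ j * α))) ≤ 1 := by
    intro j hj
    have h3 : (2 : ℝ) ^ (j + 1) ≤ 2 ^ J := pow_le_pow_right₀ (by norm_num) hj
    have h5 := mul_le_mul_of_nonneg_right h3 hα.le
    rw [hαt, pow_succ] at h5
    have h6 : (1 : ℝ) ≤ 2 ^ j := one_le_pow₀ (by norm_num)
    have h7 : α ≤ 2 ^ j * α := by nlinarith
    have h8 : 0 < 2 ^ j * α := by positivity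
    have h9 := hW d (by omega) (2 ^ j * α) (2 * (2 ^ j * α)) h7 (by linarith) (by linarith)
    have h10 : 2 * (2 ^ j * α) / (2 ^ j * α) = 2 := by
      field_simp
    rw [h10, abs_le] at h9
    have h11 : η0 ≤ Real.log 2 / 2 := by
      rw [hη0d]
      exact min_le_left _ _
    have h12 : η0 ≤ 1 - Real.log 2 := by
      rw [hη0d]
      exact min_le_right _ _
    unfold Wt
    constructor
    · linarith [h9.1]
    · linarith [h9.2]
  have hsum := blocked_all hKer ht0.le t C α ε0 (9 / 4 + 6 * ε0) J ht0.le hα.le (by rw [hαt, ht1]; linarith)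
    (by rw [hαt, ht1]; linarith) (fun j hj χ hχ => by
      by_contra hlt
      exact hχ (hXm j hj χ (not_le.mp hlt).le)) hWj hCd c hblk
  obtain ⟨F1, hF1⟩ : ∃ F1 : (ZMod d)ˣ → ℝ, F1 = sm (kr S) (EW d α 1 (1 + ε0) (1 + 2 * ε0)) := ⟨_, rfl⟩
  obtain ⟨F2, hF2⟩ : ∃ F2 : (ZMod d)ˣ → ℝ, F2 = sm (kr S) (EW d α 2 (1 + ε0) (1 + 2 * ε0)) := ⟨_, rfl⟩
  have hF10 : ∀ x, 0 ≤ F1 x := by
    rw [hF1]
    exact sm_nonneg hβ _
  have hF20 : ∀ x, 0 ≤ F2 x := by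
    rw [hF2]
    exact sm_nonneg hβ _
  have hF1C : ∀ x, F1 x ≤ C := by
    rw [hF1]
    exact sm_le hKer (hCd 1)
  have hF2C : ∀ x, F2 x ≤ C := by
    rw [hF2]
    exact sm_le hKer (hCd 2)
  have hcov2 : ∀ x, c1 ≤ F1 x + F2 x := by
    intro x
    have h1 := hcov1 x
    have h2 := sm_mono hβ (EW_mono (α := α) (i := 1) hd1 (le_refl (1 + ε0)) (show 1 + ε0 + h ≤ 1 + 2 * ε0 by linarith)) x
    have h3 := sm_mono hβ (EW_mono (α := α) (i := 2) hd1 (le_refl (1 + ε0)) (show 1 + ε0 + h ≤ 1 + 2 * ε0 by linarith)) x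
    rw [hF1, hF2]
    linarith
  rw [← hF1, ← hF2, hαt] at hsum
  have he : (J : ℝ) * ((2 * t + t) * C ^ 2) = B0 * t := by
    rw [hB0]
    ring
  rw [he] at hsum
  have hcv0 : ∀ x, 0 ≤ cv F1 F2 x := fun x => M_cv_nonneg hF10 hF20 x
  obtain ⟨s, hsd⟩ : ∃ s : (ZMod d)ˣ → ℝ, s = ge1 F1 (c1 / 2) := ⟨_, rfl⟩
  have hs : ∀ x, s x = 0 ∨ s x = 1 := fun x => by
    rw [hsd]
    exact ge1_val F1 (c1 / 2) x
  have hs0 : ∀ x, 0 ≤ s x := fun x => by rcases hs x with h1 | h1 <;> rw [h1] <;> norm_num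
  have hs1 : ∀ x, s x ≤ 1 := fun x => by rcases hs x with h1 | h1 <;> rw [h1] <;> norm_num
  have hD := dich4 F1 F2 c1 C hc1 hC0.le hF10 hF20 hF1C hF2C hcov2
  rw [← hsd, ← hK1, ← hK2] at hD
  -- a tiny prime with a small convolution
  have hTY : PW d α (2 * α) ⊆ PW d α t1 := PW_mono hd1 le_rfl (by rw [ht1]; linarith)
  obtain ⟨y0, hy0T, hy0⟩ : ∃ y0 ∈ PW d α (2 * α), cv F1 F2 (c * (ucl d y0)⁻¹) ≤ 20 * (B0 * t) := by
    by_contra hne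
    push Not at hne
    have h1 : ∑ p ∈ PW d α (2 * α), 1 / (p : ℝ) * (20 * (B0 * t)) < ∑ p ∈ PW d α (2 * α), 1 / (p : ℝ) * cv F1 F2 (c * (ucl d p)⁻¹) := by
      have h2 : (PW d α (2 * α)).Nonempty := by
        rw [nonempty_iff_ne_empty]
        intro h3
        rw [h3] at hWT0
        simp [Wt] at hWT0
      refine sum_lt_sum_of_nonempty h2 fun p hp => ?_
      have h3 : (0 : ℝ) < 1 / (p : ℝ) := by
        have := (mem_PW.1 hp).1.pos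
        positivity
      exact mul_lt_mul_of_pos_left (hne p hp) h3
    rw [← sum_mul] at h1
    have h4 : ∑ p ∈ PW d α (2 * α), 1 / (p : ℝ) * cv F1 F2 (c * (ucl d p)⁻¹) ≤ ∑ p ∈ PW d α t1, 1 / (p : ℝ) * cv F1 F2 (c * (ucl d p)⁻¹) :=
      sum_le_sum_of_subset_of_nonneg hTY (fun p _ _ => mul_nonneg (by positivity) (hcv0 _))
    have h5 : 1 / 20 * (20 * (B0 * t)) ≤ Wt (PW d α (2 * α)) * (20 * (B0 * t)) :=
      mul_le_mul_of_nonneg_right hWT (by positivity)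
    unfold Wt at h5
    linarith
  obtain ⟨-, hE1, hE2⟩ := hD (c * (ucl d y0)⁻¹)
  have hE1' : av (fun x => (1 - s x) * F1 x) ≤ B1 * t := by
    refine hE1.trans ?_
    have h1 := mul_le_mul_of_nonneg_left hy0 hK10.le
    have h2 : B1 * t = K1 * (20 * (B0 * t)) := by
      rw [hB1]
      ring
    rw [h2]
    exact h1
  have hE2' : av (fun x => s x * F2 x) ≤ B1 * t := by
    refine hE2.trans ?_
    have h1 := mul_le_mul_of_nonneg_left hy0 hK10.le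
    have h2 : B1 * t = K1 * (20 * (B0 * t)) := by
      rw [hB1]
      ring
    rw [h2]
    exact h1
  have h3 : ∑ y ∈ PW d α t1, 1 / (y : ℝ) * av (fun x => |s x - s (c * (ucl d y)⁻¹ * x⁻¹)|) ≤ B3 * t := by
    have h4 : ∑ y ∈ PW d α t1, 1 / (y : ℝ) * av (fun x => |s x - s (c * (ucl d y)⁻¹ * x⁻¹)|) ≤
        ∑ y ∈ PW d α t1, K2 * (1 / (y : ℝ) * cv F1 F2 (c * (ucl d y)⁻¹)) := by
      refine sum_le_sum fun y _ => ?_
      have h5 := mul_le_mul_of_nonneg_left (hD (c * (ucl d y)⁻¹)).1 (show (0 : ℝ) ≤ 1 / (y : ℝ) by positivity)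
      refine h5.trans (le_of_eq ?_)
      ring
    refine h4.trans ?_
    rw [← mul_sum, hB3]
    have h6 := mul_le_mul_of_nonneg_left hsum hK20.le
    linarith
  -- the two masses
  obtain ⟨hw1, hw2⟩ := hmass d (by omega)
  have hav1 : w ≤ av F1 := by
    rw [hF1, av_sm hKer]
    exact hw1
  have hav2 : w ≤ av F2 := by
    rw [hF2, av_sm hKer]
    exact hw2
  have hBw : B1 * t ≤ w / 2 := by linarith
  have ha0 : p0 ≤ av s := by
    have h4 : av F1 ≤ C * av s + av (fun x => (1 - s x) * F1 x) := by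
      rw [← av_mul_left, ← av_add]
      refine av_mono fun x => ?_
      have h5 := mul_le_mul_of_nonneg_left (hF1C x) (hs0 x)
      linarith
    rw [hp0d, div_le_iff₀ (by positivity)]
    linarith
  have ha1 : av s ≤ 1 - p0 := by
    have h4 : av F2 ≤ C * (1 - av s) + av (fun x => s x * F2 x) := by
      have h5 : C * (1 - av s) = av (fun x => C * (1 + (-1) * s x)) := by
        rw [av_mul_left, av_add, av_const, av_mul_left]
        ring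
      rw [h5, ← av_add]
      refine av_mono fun x => ?_
      have h6 := mul_le_mul_of_nonneg_left (hF2C x) (show 0 ≤ 1 - s x by linarith [hs1 x])
      linarith
    have h7 : p0 * (2 * C) = w := by
      rw [hp0d]
      field_simp
    nlinarith
  have hFY : ∀ χ : DirichletCharacter ℂ d, χ ≠ 1 → ∀ ζ : ℂ, ‖ζ‖ = 1 → -(1 / 2) ≤ ζ.re →
      σF ≤ ∑ y ∈ PW d α t1, 1 / (y : ℝ) * ‖χ (y : ZMod d) - ζ‖ ^ 2 := by
    intro χ hχ ζ hζ hζr
    refine (hF d (by omega) χ hχ ζ hζ hζr).trans ?_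
    exact sum_le_sum_of_subset_of_nonneg (PW_mono hd1 le_rfl (by rw [ht1]; linarith)) (fun p _ _ => by positivity)
  have h64 : 64 * (B3 * t) ≤ σF * p0 := by linarith
  obtain ⟨ψ, χ, τ, hτ, hψ, hχ, hψc, hk0, hf⟩ := spectrum4 (PW d α t1) (fun y hy => PW_coprime hy) s hs c (B3 * t) σF p0 hσF hp0 h64 h3
    hFY ha0 ha1
  have e5 : 32 * (B3 * t) / σF = B5 * t := by
    rw [hB5]
    ring
  rw [e5] at hf
  have hrv : ∀ x : (ZMod d)ˣ, 0 ≤ 1 + rv ψ x := by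
    intro x
    rcases rv_val ψ x with h2 | h2 <;> rw [h2] <;> norm_num
  have hT4 : ∑ y ∈ PW d α (2 * α), 1 / (y : ℝ) * (1 + rv ψ (ucl d y)) ≤ 4 * (B3 * t) :=
    le_trans (sum_le_sum_of_subset_of_nonneg hTY (fun n _ _ => mul_nonneg (by positivity) (hrv _))) hk0
  have hχX : χ ∈ X := by
    refine hXm 0 hJ1 χ ?_
    have e0 : (2 : ℝ) ^ 0 * α = α := by ring
    rw [e0]
    have h1 : ∑ u ∈ PW d α (2 * α), ((1 / (u : ℝ) : ℝ) : ℂ) * χ (u : ZMod d) =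
        ((∑ u ∈ PW d α (2 * α), 1 / (u : ℝ) * rv ψ (ucl d u) : ℝ) : ℂ) := by
      push_cast
      refine sum_congr rfl fun u hu => ?_
      have h2 := hχ (ucl d u)
      unfold ev at h2
      rw [ucl_val (PW_coprime hu)] at h2
      rw [h2]
    have h3' : ∑ u ∈ PW d α (2 * α), 1 / (u : ℝ) * rv ψ (ucl d u) =
        ∑ u ∈ PW d α (2 * α), 1 / (u : ℝ) * (1 + rv ψ (ucl d u)) - Wt (PW d α (2 * α)) := by
      unfold Wt
      rw [← sum_sub_distrib]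
      refine sum_congr rfl fun u _ => ?_
      ring
    unfold Pa
    rw [h1, norm_div, Complex.norm_real, Complex.norm_real, Real.norm_eq_abs, Real.norm_of_nonneg hWT0.le,
      le_div_iff₀ hWT0, h3']
    have ht40 : t ≤ 1 / 40 := by linarith
    have h6 : t * Wt (PW d α (2 * α)) ≤ 1 / 40 * Wt (PW d α (2 * α)) := mul_le_mul_of_nonneg_right ht40 hWT0.le
    rw [abs_of_nonpos (by linarith)]
    linarith
  have e6 : 2 * (B1 * t) + C * (B5 * t) + C * t = B6 * t := by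
    rw [hB6]
    ring
  rw [hF1] at hE1'
  rw [hF2] at hE2'
  have g1 := signs hKer ht0.le ψ χ hχ hχX (EW d α 1 (1 + ε0) (1 + 2 * ε0)) C (sm_le hKer (hCd 1)) s hs τ hτ _ _ hf hE1'
  have g2 := signs' hKer ht0.le ψ χ hχ hχX (EW d α 2 (1 + ε0) (1 + 2 * ε0)) C (sm_le hKer (hCd 2)) s hs τ hτ _ _ hf hE2'
  rw [e6] at g1 g2
  have hτ1 : τ = -1 := hsig d (by omega) α ψ τ (by linarith) hτ (by linarith)
  rw [hτ1] at g1 g2
  have g1' : ∑ n ∈ PW d (1 + ε0) (1 + 2 * ε0), 1 / (n : ℝ) * (1 + rv ψ (ucl d n)) ≤ B6 * t := by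
    rw [← EW_one hd1 (show α ≤ 1 + ε0 by linarith)]
    refine le_trans (le_of_eq (sum_congr rfl fun n _ => ?_)) g1
    ring
  have g2' : ∑ n ∈ EW d α 2 (1 + ε0) (1 + 2 * ε0), 1 / (n : ℝ) * (1 - rv ψ (ucl d n)) ≤ m := by
    refine le_trans (le_of_eq (sum_congr rfl fun n _ => ?_)) (g2.trans (by linarith))
    ring
  have hk1 : ∑ p ∈ PW d α (1 / 4), 1 / (p : ℝ) * (1 + rv ψ (ucl d p)) ≤ m := by
    refine le_trans (sum_le_sum_of_subset_of_nonneg (PW_mono hd1 le_rfl (show (1 : ℝ) / 4 ≤ t1 by rw [ht1]; linarith))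
      (fun n _ _ => mul_nonneg (by positivity) (hrv _))) (hk0.trans (by linarith))
  have g4 := hprop d (by omega) ψ m hm0.le hmEp hk1 g2'
  have g5 : Kp * m ≤ κ := by
    rw [le_div_iff₀ hKp] at hmκp
    linarith
  -- a tiny prime with `ψ = -1`
  obtain ⟨z, hzT, hzψ⟩ : ∃ z ∈ PW d α (2 * α), rv ψ (ucl d z) = -1 := by
    by_contra hne
    push Not at hne
    have h1 : ∑ y ∈ PW d α (2 * α), 1 / (y : ℝ) * (1 + rv ψ (ucl d y)) = 2 * Wt (PW d α (2 * α)) := by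
      unfold Wt
      rw [mul_sum]
      refine sum_congr rfl fun y hy => ?_
      rcases rv_val ψ (ucl d y) with h2 | h2
      · rw [h2]
        ring
      · exact absurd h2 (hne y hy)
    linarith
  have hc2 : ψ (c * (ucl d z)⁻¹) = 1 := by
    apply M_rv_one
    have h5 : rv ψ c = rv ψ (c * (ucl d z)⁻¹) * rv ψ (ucl d z) := by
      rw [← rv_mul, inv_mul_cancel_right]
    rw [hψc, hzψ] at h5
    linarith
  obtain ⟨q, m1, m2, hq, hm1, hm2, q1, q2, q3, r1, r2, r3, hqc⟩ := hE d (by omega) ψ hψ (g4.trans g5) (by linarith) _ hc2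
  obtain ⟨hzp, hz1, hz2, hz3⟩ := mem_PW.1 hzT
  have hz2' : (z : ℝ) ≤ (d : ℝ) ^ (2 * α) := (Nat.le_floor_iff (Real.rpow_nonneg hd0.le _)).mp hz2
  obtain ⟨z1, z2, z3, z4⟩ := M_four hd1 α ε0 q m1 m2 z hq hm1 hm2 hzp q1 q2 q3 hz1 r1 r2 r3 hz2'
  have hsm : (d : ℝ) ^ (2 * α) ≤ (d : ℝ) ^ (1 + 2 * ε0) := Real.rpow_le_rpow_of_exponent_le hd1' (by linarith)
  refine hblk _ (z1.trans (Real.rpow_le_rpow_of_exponent_le hd1' (by linarith))) z2 z3 ?_ ?_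
  · intro l hl hld
    rcases z4 l hl hld with h | h | h | h
    · rw [h]
      exact r1
    · rw [h]
      exact r2
    · rw [h]
      exact r3.trans hsm
    · rw [h]
      exact hz2'.trans hsm
  have h6 : ((z : ℕ) : ZMod d) = ((ucl d z : (ZMod d)ˣ) : ZMod d) := (ucl_val (PW_coprime hzT)).symm
  have h7 : ((q * m1 * m2 * z : ℕ) : ZMod d) = ((q * m1 * m2 : ℕ) : ZMod d) * (z : ZMod d) := by
    push_cast
    ring
  rw [h7, hqc, h6, ← Units.val_mul, inv_mul_cancel_right]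

end Pool.Agent.Lib.MP_42948a_nt.FP
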