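import Pool.Agent.Lib.MP_42948a_nt.FP.A5
import Pool.Agent.Lib.MP_42948a_nt.TF.FB
import Pool.Agent.Lib.MP_42948a_nt.TF.FC
import Pool.Agent.Lib.MP_42948a_nt.TF.FE
import Pool.Agent.Lib.MP_42948a_nt.TF.FV
import Pool.Agent.Lib.MP_42948a_nt.TF.FW
import Pool.Agent.Lib.MP_42948a_nt.TF.BR
import Pool.Agent.Lib.MP_42948a_nt.TF.H2
import Pool.Agent.Lib.MP_42948a_nt.TF.U2

/-!
# Exactly five primes `≤ d^(1+ε)`, product `≤ d^(2+ε)`, every modulus, every reduced class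

The proof of `TF.five` (TF/M.lean), keeping the size of the primes.

The final assembly. Constants, in this order: `ε0`; `c0`, `σV` (`far`); `κ`, `αE` (`exc_end`); `α`; `h0`, `h`, `c1` (`cover_kr`); `C` (`den_bound`);
`K5` (`dich_at`); `Kc` (`chain`); `Kp`, `Ep` (`propagate`); `Es` (`sigma_neg`); `t`; `mf` (`few`); `B` (`kernel_kr`).
A class `c` which is not a product of five primes gives a prime `p1 ∈ (d^α, d^(2α)]` such that both convolutions are small at `c / p1`; the dichotomy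
(`dich_at`), `chain` and `real_char` give a real character `ψ`, `ψ(p) = -1` for most primes `p ∈ (d^α, d^(1/2+ε0)]` (`propagate`) and a second prime `p0` with
`ψ(p0) = -1` and small convolutions at `c / p0`, whence `ψ(c / p0) = -1`, `ψ(c) = 1`; then `exc_end` represents `c / p0^2` by three primes.
-/

namespace Pool.Agent.Lib.MP_42948a_nt.FP

open Finset Pool.Agent.Lib.MP_42948a_nt.OA Pool.Agent.Lib.MP_42948a_nt.TQ Pool.Agent.Lib.MP_42948a_nt.PS Pool.Agent.Lib.MP_42948a_nt.TF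

private theorem M_rv_one {d : ℕ} (ψ : (ZMod d)ˣ →* ℤˣ) (x : (ZMod d)ˣ) (h : rv ψ x = 1) : ψ x = 1 := by
  unfold rv at h
  have h1 : ((ψ x : ℤˣ) : ℤ) = 1 := by exact_mod_cast h
  exact Units.ext h1

private theorem M_cv_nonneg {d : ℕ} [NeZero d] {f g : (ZMod d)ˣ → ℝ} (hf : ∀ x, 0 ≤ f x) (hg : ∀ x, 0 ≤ g x) (c : (ZMod d)ˣ) :
    0 ≤ cv f g c := av_nonneg fun x => mul_nonneg (hf x) (hg _)

/-- the five primes from the exceptional case -/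
private theorem M_five {d : ℕ} (hd : 1 ≤ d) (α ε0 : ℝ) (q m1 m2 p : ℕ) (hq : q.Prime) (hm1 : m1.Prime) (hm2 : m2.Prime)
    (hp : p.Prime) (q1 : ⌊(d : ℝ) ^ α⌋₊ < q) (q2 : ⌊(d : ℝ) ^ α⌋₊ < m1) (q3 : ⌊(d : ℝ) ^ α⌋₊ < m2) (q4 : ⌊(d : ℝ) ^ α⌋₊ < p)
    (r1 : (q : ℝ) ≤ (d : ℝ) ^ (1 + 2 * ε0)) (r2 : (m1 : ℝ) ≤ (d : ℝ) ^ (1 + 2 * ε0)) (r3 : (m2 : ℝ) ≤ (d : ℝ) ^ (2 * α))
    (r4 : (p : ℝ) ≤ (d : ℝ) ^ (2 * α)) :
    ((q * m1 * m2 * (p * p) : ℕ) : ℝ) ≤ (d : ℝ) ^ (2 + 4 * ε0 + 6 * α) ∧ Rough ⌊(d : ℝ) ^ α⌋₊ (q * m1 * m2 * (p * p)) ∧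
      ArithmeticFunction.cardFactors (q * m1 * m2 * (p * p)) = 5 ∧
      ∀ l : ℕ, l.Prime → l ∣ q * m1 * m2 * (p * p) → l = q ∨ l = m1 ∨ l = m2 ∨ l = p := by
  have hd0 : (0 : ℝ) < d := by exact_mod_cast hd
  have hR : ∀ r : ℕ, r.Prime → ⌊(d : ℝ) ^ α⌋₊ < r → Rough ⌊(d : ℝ) ^ α⌋₊ r := by
    intro r hr hr2
    refine ⟨hr.pos, fun l hl hlr => ?_⟩
    rw [(Nat.prime_dvd_prime_iff_eq hl hr).mp hlr]
    exact hr2
  refine ⟨?_, ?_, ?_, ?_⟩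
  · push_cast
    calc (q : ℝ) * (m1 : ℝ) * (m2 : ℝ) * ((p : ℝ) * (p : ℝ)) ≤
        (d : ℝ) ^ (1 + 2 * ε0) * (d : ℝ) ^ (1 + 2 * ε0) * (d : ℝ) ^ (2 * α) * ((d : ℝ) ^ (2 * α) * (d : ℝ) ^ (2 * α)) := by
          gcongr
      _ = (d : ℝ) ^ (2 + 4 * ε0 + 6 * α) := by
          rw [← Real.rpow_add hd0, ← Real.rpow_add hd0, ← Real.rpow_add hd0, ← Real.rpow_add hd0]
          congr 1
          ring
  · exact Rough.mul (Rough.mul (Rough.mul (hR q hq q1) (hR m1 hm1 q2)) (hR m2 hm2 q3)) (Rough.mul (hR p hp q4) (hR p hp q4))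
  · have n1 := hq.ne_zero
    have n2 := hm1.ne_zero
    have n3 := hm2.ne_zero
    have n4 := hp.ne_zero
    rw [ArithmeticFunction.cardFactors_mul (Nat.mul_ne_zero (Nat.mul_ne_zero n1 n2) n3) (Nat.mul_ne_zero n4 n4),
      ArithmeticFunction.cardFactors_mul (Nat.mul_ne_zero n1 n2) n3, ArithmeticFunction.cardFactors_mul n1 n2,
      ArithmeticFunction.cardFactors_mul n4 n4, ArithmeticFunction.cardFactors_apply_prime hq,
      ArithmeticFunction.cardFactors_apply_prime hm1, ArithmeticFunction.cardFactors_apply_prime hm2,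
      ArithmeticFunction.cardFactors_apply_prime hp]
  · intro l hl hld
    rcases (Nat.Prime.dvd_mul hl).mp hld with h | h
    · rcases (Nat.Prime.dvd_mul hl).mp h with h | h
      · rcases (Nat.Prime.dvd_mul hl).mp h with h | h
        · exact Or.inl ((Nat.prime_dvd_prime_iff_eq hl hq).mp h)
        · exact Or.inr (Or.inl ((Nat.prime_dvd_prime_iff_eq hl hm1).mp h))
      · exact Or.inr (Or.inr (Or.inl ((Nat.prime_dvd_prime_iff_eq hl hm2).mp h)))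
    · rcases (Nat.Prime.dvd_mul hl).mp h with h | h
      · exact Or.inr (Or.inr (Or.inr ((Nat.prime_dvd_prime_iff_eq hl hp).mp h)))
      · exact Or.inr (Or.inr (Or.inr ((Nat.prime_dvd_prime_iff_eq hl hp).mp h)))

/-- exactly five primes, every modulus `d ≥ d0`, every reduced class -/
theorem five (ε : ℝ) (hε : 0 < ε) : ∃ δ : ℝ, 0 < δ ∧ ∃ d0 : ℕ, ∀ d : ℕ, d0 ≤ d → ∀ c : (ZMod d)ˣ, ∃ n : ℕ,
    (n : ℝ) ≤ (d : ℝ) ^ (2 + ε) ∧ (∀ q : ℕ, q.Prime → q ∣ n → (d : ℝ) ^ δ < q ∧ (q : ℝ) ≤ (d : ℝ) ^ (1 + ε)) ∧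
      ArithmeticFunction.cardFactors n = 5 ∧ n ≠ 0 ∧ (n : ZMod d) = (c : ZMod d) := by
  classical
  obtain ⟨ε0, hε0d⟩ : ∃ ε0 : ℝ, ε0 = min (ε / 10) (1 / 1000) := ⟨_, rfl⟩
  have hε0 : 0 < ε0 := by
    rw [hε0d]
    exact lt_min (by positivity) (by norm_num)
  have hε01 : ε0 ≤ 1 / 1000 := by
    rw [hε0d]
    exact min_le_right _ _
  have hε0ε : ε0 ≤ ε / 10 := by
    rw [hε0d]
    exact min_le_left _ _
  obtain ⟨c0, σV, hc0, hσV, dV, hV⟩ := far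
  obtain ⟨κ, αE, hκ, hαE, hex⟩ := exc_end ε0 hε0 hε01
  obtain ⟨α, hαd⟩ : ∃ α : ℝ, α = min (ε0 / 8) (min c0 αE) := ⟨_, rfl⟩
  have hα : 0 < α := by
    rw [hαd]
    exact lt_min (by positivity) (lt_min hc0 hαE)
  have hα8 : α ≤ ε0 / 8 := by
    rw [hαd]
    exact min_le_left _ _
  have hαc : α ≤ c0 := by
    rw [hαd]
    exact (min_le_right _ _).trans (min_le_left _ _)
  have hαE' : α ≤ αE := by
    rw [hαd]
    exact (min_le_right _ _).trans (min_le_right _ _)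
  obtain ⟨dE, hE⟩ := hex α hα hαE'
  obtain ⟨h0, hh0, hcv⟩ := cover_kr α hα (by linarith)
  obtain ⟨h, hhd⟩ : ∃ h : ℝ, h = min h0 (ε0 / 8) := ⟨_, rfl⟩
  have hh : 0 < h := by
    rw [hhd]
    exact lt_min hh0 (by positivity)
  have hhh0 : h ≤ h0 := by
    rw [hhd]
    exact min_le_left _ _
  have hh1 : h ≤ ε0 / 8 := by
    rw [hhd]
    exact min_le_right _ _
  obtain ⟨c1, hc1, hcov⟩ := hcv h hh hhh0
  obtain ⟨C, hC, dC, hden⟩ := den_bound ε0 α hε0 (by linarith) hα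
  obtain ⟨dT, hT⟩ := WtT α hα
  have hlog2 : 0 < Real.log 2 := Real.log_pos (by norm_num)
  obtain ⟨dW, hW⟩ := win α 1 (Real.log 2 / 2) hα (by positivity)
  obtain ⟨K5, hK5, hdich⟩ := dich_at C c1 (Real.log 2 / 2) hC hc1 (by positivity)
  obtain ⟨Kc, hKc, dK, hchain⟩ := chain α ε0 h c1 hα (by linarith) hε0 hε01 hh hh1 hc1
  obtain ⟨Kp, Ep, hKp, hEp, dP, hprop⟩ := propagate ε0 α hε0 hε01 hα (by linarith)
  obtain ⟨Es, hEs, dS, hsig⟩ := sigma_neg ε0 hε0 hε01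
  obtain ⟨η4, hη4d⟩ : ∃ η4 : ℝ, η4 = min σV (1 / 20) := ⟨_, rfl⟩
  have hη4 : 0 < η4 := by
    rw [hη4d]
    exact lt_min hσV (by norm_num)
  have hη4V : η4 ≤ σV := by
    rw [hη4d]
    exact min_le_left _ _
  have hη420 : η4 ≤ 1 / 20 := by
    rw [hη4d]
    exact min_le_right _ _
  have hC0 : 0 < C := by linarith
  -- the constants of the error terms
  obtain ⟨B1, hB1⟩ : ∃ B1 : ℝ, B1 = K5 * (12 * C ^ 2) := ⟨_, rfl⟩
  obtain ⟨B5, hB5⟩ : ∃ B5 : ℝ, B5 = 8 * (Kc * B1) / η4 := ⟨_, rfl⟩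
  obtain ⟨B6, hB6⟩ : ∃ B6 : ℝ, B6 = 2 * B1 + C * B5 + C := ⟨_, rfl⟩
  obtain ⟨A, hA⟩ : ∃ A : ℝ, A = 1 + B1 + 4 * (Kc * B1) + B5 + B6 := ⟨_, rfl⟩
  have hB10 : 0 < B1 := by
    rw [hB1]
    positivity
  have hB50 : 0 < B5 := by
    rw [hB5]
    positivity
  have hB60 : 0 < B6 := by
    rw [hB6]
    positivity
  have hKB0 : 0 < Kc * B1 := mul_pos hKc hB10
  have hA0 : 0 < A := by
    rw [hA]
    positivity
  obtain ⟨m, hm⟩ : ∃ m : ℝ, m = min (min Ep (κ / Kp)) (min (min Es κ) (min (η4 / 4) (1 / 4))) := ⟨_, rfl⟩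
  have hm0 : 0 < m := by
    rw [hm]
    exact lt_min (lt_min hEp (by positivity)) (lt_min (lt_min hEs hκ) (lt_min (by positivity) (by norm_num)))
  have hmEp : m ≤ Ep := by
    rw [hm]
    exact (min_le_left _ _).trans (min_le_left _ _)
  have hmκp : m ≤ κ / Kp := by
    rw [hm]
    exact (min_le_left _ _).trans (min_le_right _ _)
  have hmEs : m ≤ Es := by
    rw [hm]
    exact (min_le_right _ _).trans ((min_le_left _ _).trans (min_le_left _ _))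
  have hmκ : m ≤ κ := by
    rw [hm]
    exact (min_le_right _ _).trans ((min_le_left _ _).trans (min_le_right _ _))
  have hmη : m ≤ η4 / 4 := by
    rw [hm]
    exact (min_le_right _ _).trans ((min_le_right _ _).trans (min_le_left _ _))
  have hm4 : m ≤ 1 / 4 := by
    rw [hm]
    exact (min_le_right _ _).trans ((min_le_right _ _).trans (min_le_right _ _))
  obtain ⟨t, ht⟩ : ∃ t : ℝ, t = m / A := ⟨_, rfl⟩
  have ht0 : 0 < t := by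
    rw [ht]
    positivity
  have hAt : A * t = m := by
    rw [ht]
    field_simp
  have hAt' : t + B1 * t + 4 * (Kc * (B1 * t)) + B5 * t + B6 * t = m := by
    rw [← hAt, hA]
    ring
  have hB1t : 0 < B1 * t := mul_pos hB10 ht0
  have hB5t : 0 < B5 * t := mul_pos hB50 ht0
  have hB6t : 0 < B6 * t := mul_pos hB60 ht0
  have hKBt : 0 < Kc * (B1 * t) := mul_pos hKc hB1t
  obtain ⟨mf, dF, hfew⟩ := few α t hα (by linarith) ht0
  obtain ⟨B, hker⟩ := kernel_kr mf t ht0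
  obtain ⟨dB, hcovB⟩ := hcov B
  refine ⟨α, hα, 1 + dV + dE + dC + dT + dW + dK + dP + dS + dF + dB, ?_⟩
  intro d hd c
  have : NeZero d := ⟨by omega⟩
  have hd1 : 1 ≤ d := by omega
  have hd1' : (1 : ℝ) ≤ d := by exact_mod_cast hd1
  have hd0 : (0 : ℝ) < d := by linarith
  by_contra hno
  -- the class is blocked
  have hblk : ∀ n : ℕ, (n : ℝ) ≤ (d : ℝ) ^ (2 + 4 * ε0 + 6 * α) → Rough ⌊(d : ℝ) ^ α⌋₊ n →
      ArithmeticFunction.cardFactors n = 5 → (∀ q : ℕ, q.Prime → q ∣ n → (q : ℝ) ≤ (d : ℝ) ^ (1 + 2 * ε0)) →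
      (n : ZMod d) ≠ (c : ZMod d) := by
    intro n hn1 hn2 hn3 hn5 hn4
    apply hno
    refine ⟨n, hn1.trans (Real.rpow_le_rpow_of_exponent_le hd1' (by linarith)), ?_, hn3, hn2.1.ne', hn4⟩
    intro q hq hqn
    exact ⟨Nat.lt_of_floor_lt (hn2.2 q hq hqn), (hn5 q hq hqn).trans (Real.rpow_le_rpow_of_exponent_le hd1' (by linarith))⟩
  have hWT := hT d (by omega)
  have hWT0 : 0 < Wt (PW d α (2 * α)) := by linarith
  obtain ⟨X, hX⟩ : ∃ X : Finset (DirichletCharacter ℂ d),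
      X = univ.filter (fun χ => t ≤ ‖Pa (PW d α (2 * α)) χ‖) := ⟨_, rfl⟩
  have hXm : ∀ χ : DirichletCharacter ℂ d, χ ∈ X ↔ t ≤ ‖Pa (PW d α (2 * α)) χ‖ := by
    intro χ
    rw [hX, mem_filter]
    exact ⟨fun h => h.2, fun h => ⟨mem_univ _, h⟩⟩
  obtain ⟨S, hS, hSB, hKer⟩ := hker d X (hfew d (by omega) X (fun χ hχ => (hXm χ).1 hχ))
  have hβ := hKer.nonneg
  have hcov1 : ∀ a : ℝ, 83 / 100 ≤ a → a ≤ 11 / 10 → ∀ x : (ZMod d)ˣ,
      c1 ≤ sm (kr S) (EW d α 1 a (a + h)) x + sm (kr S) (EW d α 2 a (a + h)) x := fun a ha1 ha2 x =>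
    hcovB d (by omega) S hS hSB a ha1 (by linarith) x
  have hCd : ∀ (i : ℕ) (x : (ZMod d)ˣ), den (EW d α i (1 + ε0) (1 + 2 * ε0)) x ≤ C := hden d (by omega)
  have hWd : Real.log 2 / 2 ≤ ∑ p ∈ PW d α (ε0 / 4), 1 / (p : ℝ) := by
    have h1 := (abs_le.1 (hW d (by omega) α (ε0 / 4) le_rfl (by linarith) (by linarith))).1
    have h2 : Real.log 2 ≤ Real.log (ε0 / 4 / α) := by
      refine Real.log_le_log (by norm_num) ?_
      rw [le_div_iff₀ hα]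
      linarith
    linarith
  have hD := hdich d α ε0 h hα hε0 hh hh1 X t ((B : ℝ) ^ 2) (kr S) (EK.bh S) hKer hCd
    (hcov1 (1 + ε0) (by linarith) (by linarith)) hWd
  have hsum := blocked_sum5 hKer ht0.le t C α ε0 (2 + 4 * ε0 + 6 * α) ht0.le (by linarith) (by linarith)
    (fun χ hχ => by
      rw [hXm, not_le] at hχ
      exact hχ.le) hWT0 hCd c hblk
  obtain ⟨F1, hF1⟩ : ∃ F1 : (ZMod d)ˣ → ℝ, F1 = sm (kr S) (EW d α 1 (1 + ε0) (1 + 2 * ε0)) := ⟨_, rfl⟩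
  obtain ⟨F2, hF2⟩ : ∃ F2 : (ZMod d)ˣ → ℝ, F2 = sm (kr S) (EW d α 2 (1 + ε0) (1 + 2 * ε0)) := ⟨_, rfl⟩
  obtain ⟨F3, hF3⟩ : ∃ F3 : (ZMod d)ˣ → ℝ, F3 = sm (kr S) (EW d α 3 (1 + ε0) (1 + 2 * ε0)) := ⟨_, rfl⟩
  have hF10 : ∀ x, 0 ≤ F1 x := by
    rw [hF1]
    exact sm_nonneg hβ _
  have hF20 : ∀ x, 0 ≤ F2 x := by
    rw [hF2]
    exact sm_nonneg hβ _
  have hF30 : ∀ x, 0 ≤ F3 x := by
    rw [hF3]
    exact sm_nonneg hβ _
  rw [← hF1, ← hF2, ← hF3] at hD hsum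
  obtain ⟨e, he⟩ : ∃ e : ℝ, e = 2 * ((2 * t + t) * C ^ 2) := ⟨_, rfl⟩
  have he0 : 0 < e := by
    rw [he]
    positivity
  rw [← he] at hsum
  have hKe : K5 * (2 * e) = B1 * t := by
    rw [he, hB1]
    ring
  have hg : ∀ p ∈ PW d α (2 * α), 0 ≤ cv F2 F2 (c * (ucl d p)⁻¹) + cv F1 F3 (c * (ucl d p)⁻¹) := fun p _ =>
    add_nonneg (M_cv_nonneg hF20 hF20 _) (M_cv_nonneg hF10 hF30 _)
  -- the first prime
  obtain ⟨p1, -, hp1, -⟩ := pick (PW d α (2 * α)) (fun p => cv F2 F2 (c * (ucl d p)⁻¹) + cv F1 F3 (c * (ucl d p)⁻¹))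
    (fun _ => 0) e 1 he0 one_pos hg (fun _ _ => le_rfl) hWT0 hsum (by
      simp only [mul_zero, sum_const_zero]
      linarith)
  obtain ⟨hE1, hE2, hE3, -⟩ := hD (2 * e) (c * (ucl d p1)⁻¹) (by linarith)
    (by linarith [M_cv_nonneg hF10 hF30 (c * (ucl d p1)⁻¹)]) (by linarith [M_cv_nonneg hF20 hF20 (c * (ucl d p1)⁻¹)])
  rw [hKe] at hE1 hE2 hE3
  have hs : ∀ x, ge1 F1 (c1 / 2) x = 0 ∨ ge1 F1 (c1 / 2) x = 1 := fun x => ge1_val F1 (c1 / 2) x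
  rw [hF2] at hE2
  rw [hF3] at hE3
  have hE1' : av (fun x => (1 - ge1 F1 (c1 / 2) x) * sm (kr S) (EW d α 1 (1 + ε0) (1 + 2 * ε0)) x) ≤ B1 * t := by
    rw [← hF1]
    exact hE1
  have h3 := hchain d (by omega) (kr S) (ge1 F1 (c1 / 2)) hβ hs hcov1 (B1 * t) hB1t.le hE1' hE2 hE3
  have hVd : ∀ χ : DirichletCharacter ℂ d, χ ≠ 1 →
      η4 ≤ ∑ y ∈ PW d α (165 / 1000), 1 / (y : ℝ) * (1 - (χ (y : ZMod d)).re) := fun χ hχ =>
    hη4V.trans (hV d (by omega) α hαc χ hχ)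
  obtain ⟨ψ, σ, hσ, hψ, k0, hf, g1, g2, g3⟩ := real_char hKer ht0.le α ε0 C (B1 * t) (Kc * (B1 * t)) η4 (ge1 F1 (c1 / 2)) hs hCd
    (by linarith) (fun χ hχ => (hXm χ).2 (by linarith)) hWT hη4 hη420 (by linarith) hVd h3 hE1' hE2 hE3
  have e5 : 8 * (Kc * (B1 * t)) / η4 = B5 * t := by
    rw [hB5]
    ring
  have e6 : 2 * (B1 * t) + C * (B5 * t) + C * t = B6 * t := by
    rw [hB6]
    ring
  rw [e5] at hf g1 g2 g3
  rw [e6] at g1 g2 g3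
  have hσ1 : σ = -1 := hsig d (by omega) α ψ σ (by linarith) hσ (by linarith)
  rw [hσ1] at g1 g2 g3 hf
  have g1' : ∑ n ∈ PW d (1 + ε0) (1 + 2 * ε0), 1 / (n : ℝ) * (1 + rv ψ (ucl d n)) ≤ B6 * t := by
    rw [← EW_one hd1 (show α ≤ 1 + ε0 by linarith)]
    refine le_trans (le_of_eq (sum_congr rfl fun n _ => ?_)) g1
    ring
  have g2' : ∑ n ∈ EW d α 2 (1 + ε0) (1 + 2 * ε0), 1 / (n : ℝ) * (1 - rv ψ (ucl d n)) ≤ m := by
    refine le_trans (le_of_eq (sum_congr rfl fun n _ => ?_)) (g2.trans (by linarith))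
    ring
  have g3' : ∑ n ∈ EW d α 3 (1 + ε0) (1 + 2 * ε0), 1 / (n : ℝ) * (1 + rv ψ (ucl d n)) ≤ m := by
    refine le_trans (le_of_eq (sum_congr rfl fun n _ => ?_)) (g3.trans (by linarith))
    ring
  have g4 := hprop d (by omega) ψ m hm0.le hmEp (k0.trans (by linarith)) g2' g3'
  have g5 : Kp * m ≤ κ := by
    rw [le_div_iff₀ hKp] at hmκp
    linarith
  -- the second prime
  have hTY : PW d α (2 * α) ⊆ PW d α (165 / 1000) := PW_mono hd1 le_rfl (by linarith)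
  have hrv : ∀ x : (ZMod d)ˣ, 0 ≤ 1 + rv ψ x := by
    intro x
    rcases rv_val ψ x with h2 | h2 <;> rw [h2] <;> norm_num
  have hT2 : ∑ p ∈ PW d α (2 * α), 1 / (p : ℝ) * (1 + rv ψ (ucl d p)) ≤ Wt (PW d α (2 * α)) * (1 / 2) := by
    have h5 : ∑ p ∈ PW d α (2 * α), 1 / (p : ℝ) * (1 + rv ψ (ucl d p)) ≤ 4 * (Kc * (B1 * t)) :=
      le_trans (sum_le_sum_of_subset_of_nonneg hTY (fun n _ _ => mul_nonneg (by positivity) (hrv _))) k0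
    linarith
  obtain ⟨p0, hp0T, hp0, hp0'⟩ := pick (PW d α (2 * α)) (fun p => cv F2 F2 (c * (ucl d p)⁻¹) + cv F1 F3 (c * (ucl d p)⁻¹))
    (fun p => 1 + rv ψ (ucl d p)) e (1 / 2) he0 (by norm_num) hg (fun _ _ => hrv _) hWT0 hsum hT2
  have hp0ψ : rv ψ (ucl d p0) = -1 := by
    rcases rv_val ψ (ucl d p0) with h2 | h2
    · exfalso
      have h5 : 1 + rv ψ (ucl d p0) ≤ 2 * (1 / 2) := hp0'
      rw [h2] at h5
      norm_num at h5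
    · exact h2
  obtain ⟨-, -, -, hE4⟩ := hD (2 * e) (c * (ucl d p0)⁻¹) (by linarith)
    (by linarith [M_cv_nonneg hF10 hF30 (c * (ucl d p0)⁻¹)]) (by linarith [M_cv_nonneg hF20 hF20 (c * (ucl d p0)⁻¹)])
  rw [hKe] at hE4
  have hcψ := psi_c (ge1 F1 (c1 / 2)) ψ (-1) (Or.inr rfl) (c * (ucl d p0)⁻¹) (B1 * t) (B5 * t) hE4 hf (by linarith)
  have hc2 : ψ (c * (ucl d p0)⁻¹ * (ucl d p0)⁻¹) = 1 := by
    apply M_rv_one
    have h5 : rv ψ (c * (ucl d p0)⁻¹) = rv ψ (c * (ucl d p0)⁻¹ * (ucl d p0)⁻¹) * rv ψ (ucl d p0) := by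
      rw [← rv_mul, inv_mul_cancel_right]
    rw [hcψ, hp0ψ] at h5
    linarith
  obtain ⟨q, m1, m2, hq, hm1, hm2, q1, q2, q3, r1, r2, r3, hqc⟩ := hE d (by omega) ψ hψ (g4.trans g5) (by linarith) _ hc2
  obtain ⟨hp0p, hp01, hp02, hp03⟩ := mem_PW.1 hp0T
  have hp02' : (p0 : ℝ) ≤ (d : ℝ) ^ (2 * α) := (Nat.le_floor_iff (Real.rpow_nonneg hd0.le _)).mp hp02
  obtain ⟨z1, z2, z3, z4⟩ := M_five hd1 α ε0 q m1 m2 p0 hq hm1 hm2 hp0p q1 q2 q3 hp01 r1 r2 r3 hp02'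
  have hsm : (d : ℝ) ^ (2 * α) ≤ (d : ℝ) ^ (1 + 2 * ε0) := Real.rpow_le_rpow_of_exponent_le hd1' (by linarith)
  refine hblk _ z1 z2 z3 ?_ ?_
  · intro l hl hld
    rcases z4 l hl hld with h | h | h | h
    · rw [h]
      exact r1
    · rw [h]
      exact r2
    · rw [h]
      exact r3.trans hsm
    · rw [h]
      exact hp02'.trans hsm
  have h6 : ((p0 : ℕ) : ZMod d) = ((ucl d p0 : (ZMod d)ˣ) : ZMod d) := (ucl_val (PW_coprime hp0T)).symm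
  have h7 : ((q * m1 * m2 * (p0 * p0) : ℕ) : ZMod d) = ((q * m1 * m2 : ℕ) : ZMod d) * ((p0 : ZMod d) * (p0 : ZMod d)) := by
    push_cast
    ring
  rw [h7, hqc, h6, ← Units.val_mul, ← Units.val_mul]
  congr 1
  group

end Pool.Agent.Lib.MP_42948a_nt.FP
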