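import Pool.Agent.Lib.MP_42948a_nt.TF.A1
import Pool.Agent.Lib.MP_42948a_nt.TF.G2

/-!
# The spectrum of the partition, four primes

`f = 2 s - 1 = ±1`, `a χ = ‖SF f χ‖² / φ²`, `ζ χ = ev χ c * A / conj A`, `A = SF f χ`; `D χ = ∑ y ∈ Y, 1/y ‖χ y - ζ χ‖²`. Parseval for the function
`x ↦ f (c y⁻¹ x⁻¹) - f x` gives `∑ a χ D χ ≤ 4 η3`. By `hF` (applied to `χ`, to `χ²` and to products) at most one `χ ≠ 1` has `D χ < σ / 4`, and it is real
with `ζ = -1`.
-/

namespace Pool.Agent.Lib.MP_42948a_nt.FP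

open Finset Pool.Agent.Lib.MP_42948a_nt.OA Pool.Agent.Lib.MP_42948a_nt.TQ Pool.Agent.Lib.MP_42948a_nt.PS Pool.Agent.Lib.MP_42948a_nt.TF

theorem S_ind {ι : Type*} [Fintype ι] [DecidableEq ι] (a D : ι → ℝ) (ha : ∀ i, 0 ≤ a i) (hD : ∀ i, 0 ≤ D i)
    (h1 : ∑ i, a i = 1) (o : ι) (η3 σ p0 : ℝ) (hσ : 0 < σ) (hp0 : 0 < p0) (h34 : 64 * η3 ≤ σ * p0) (h2 : ∑ i, a i * D i ≤ 4 * η3)
    (ho : a o ≤ 1 - 2 * p0) (h3 : ∀ i j, i ≠ o → j ≠ o → D i < σ / 4 → D j < σ / 4 → i = j) :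
    ∃ i, i ≠ o ∧ D i < σ / 4 ∧ 1 - 16 * η3 / σ ≤ a o + a i := by
  have h8 : a o = 1 - ∑ j ∈ univ.erase o, a j := by
    rw [← h1, ← Finset.add_sum_erase univ _ (mem_univ o)]
    ring
  have hε : 16 * η3 / σ ≤ p0 / 4 := by
    rw [div_le_iff₀ hσ]
    linarith
  have hex : ∃ i, i ≠ o ∧ D i < σ / 4 := by
    by_contra hne
    push Not at hne
    have h5 : (∑ j ∈ univ.erase o, a j) * (σ / 4) ≤ 4 * η3 := by
      refine le_trans ?_ h2
      rw [Finset.sum_mul, ← Finset.add_sum_erase univ (fun i => a i * D i) (mem_univ o)]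
      have h6 : ∑ j ∈ univ.erase o, a j * (σ / 4) ≤ ∑ j ∈ univ.erase o, a j * D j :=
        Finset.sum_le_sum fun j hj => mul_le_mul_of_nonneg_left (hne j (Finset.mem_erase.mp hj).1) (ha j)
      have h7 : 0 ≤ a o * D o := mul_nonneg (ha o) (hD o)
      linarith
    have h9 : ∑ j ∈ univ.erase o, a j ≤ 16 * η3 / σ := by
      rw [le_div_iff₀ hσ]
      linarith
    linarith
  obtain ⟨i, hio, hi⟩ := hex
  refine ⟨i, hio, hi, ?_⟩
  have hmem : i ∈ univ.erase o := mem_erase.mpr ⟨hio, mem_univ i⟩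
  have h5 : (∑ j ∈ (univ.erase o).erase i, a j) * (σ / 4) ≤ 4 * η3 := by
    refine le_trans ?_ h2
    rw [Finset.sum_mul, ← Finset.add_sum_erase univ (fun i => a i * D i) (mem_univ o),
      ← Finset.add_sum_erase (univ.erase o) (fun i => a i * D i) hmem]
    have h6 : ∑ j ∈ (univ.erase o).erase i, a j * (σ / 4) ≤ ∑ j ∈ (univ.erase o).erase i, a j * D j := by
      refine Finset.sum_le_sum fun j hj => mul_le_mul_of_nonneg_left ?_ (ha j)
      by_contra hlt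
      obtain ⟨h10, h11⟩ := Finset.mem_erase.mp hj
      exact h10 (h3 j i (Finset.mem_erase.mp h11).1 hio (not_le.mp hlt) hi)
    have h7 : 0 ≤ a o * D o := mul_nonneg (ha o) (hD o)
    have h7' : 0 ≤ a i * D i := mul_nonneg (ha i) (hD i)
    linarith
  have h9 : ∑ j ∈ (univ.erase o).erase i, a j ≤ 16 * η3 / σ := by
    rw [le_div_iff₀ hσ]
    linarith
  have h12 : ∑ j ∈ univ.erase o, a j = a i + ∑ j ∈ (univ.erase o).erase i, a j :=
    (Finset.add_sum_erase _ _ hmem).symm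
  linarith

private theorem S_refl {d : ℕ} [NeZero d] (f : (ZMod d)ˣ → ℝ) (g : (ZMod d)ˣ) (χ : DirichletCharacter ℂ d) :
    SF (fun x => f (g * x⁻¹) - f x) χ = (starRingEnd ℂ) (ev χ g) * (starRingEnd ℂ) (SF f χ) - SF f χ := by
  have h1 : ∑ c : (ZMod d)ˣ, (f (g * c⁻¹) : ℂ) * (starRingEnd ℂ) (ev χ c) =
      (starRingEnd ℂ) (ev χ g) * (starRingEnd ℂ) (SF f χ) := by
    unfold SF
    rw [map_sum, Finset.mul_sum, ← Equiv.sum_comp (Equiv.divLeft g)]
    refine Finset.sum_congr rfl fun c _ => ?_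
    rw [Equiv.divLeft_apply, div_eq_mul_inv, map_mul, Complex.conj_conj, Complex.conj_ofReal, ev_mul, map_mul, conj_ev χ c⁻¹, inv_inv]
    have h2 : g * (g * c⁻¹)⁻¹ = c := by rw [mul_inv, inv_inv, mul_inv_cancel_left]
    rw [h2]
    ring
  have h2 : SF (fun x => f (g * x⁻¹) - f x) χ =
      ∑ c : (ZMod d)ˣ, (f (g * c⁻¹) : ℂ) * (starRingEnd ℂ) (ev χ c) -
        ∑ c : (ZMod d)ˣ, (f c : ℂ) * (starRingEnd ℂ) (ev χ c) := by
    rw [← Finset.sum_sub_distrib]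
    refine Finset.sum_congr rfl fun c _ => ?_
    rw [Complex.ofReal_sub, sub_mul]
  rw [h2, h1]
  rfl

/-- the unimodular number attached to a coefficient -/
private noncomputable def zt (e A : ℂ) : ℂ := if A = 0 then 1 else e * A / (starRingEnd ℂ) A

private theorem norm_zt (e A : ℂ) (he : ‖e‖ = 1) : ‖zt e A‖ = 1 := by
  unfold zt
  split_ifs with h
  · exact norm_one
  · have h1 : ‖A‖ ≠ 0 := norm_ne_zero_iff.mpr h
    rw [norm_div, norm_mul, he, RCLike.norm_conj, one_mul, div_self h1]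

/-- `e = ev χ c`, `w = ev χ y`, `ev χ (c y⁻¹) = e * conj w` -/
private theorem zt_eq (e w A : ℂ) (he : ‖e‖ = 1) (hw : ‖w‖ = 1) :
    ‖(starRingEnd ℂ) (e * (starRingEnd ℂ) w) * (starRingEnd ℂ) A - A‖ ^ 2 = ‖A‖ ^ 2 * ‖w - zt e A‖ ^ 2 := by
  have hee : e * (starRingEnd ℂ) e = 1 := by
    rw [Complex.mul_conj, Complex.normSq_eq_norm_sq, he]
    norm_num
  by_cases h : A = 0
  · rw [h]
    simp
  · have hc : (starRingEnd ℂ) A ≠ 0 := by
      intro h1
      apply h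
      have h2 := congrArg (starRingEnd ℂ) h1
      rwa [Complex.conj_conj, map_zero] at h2
    have h3 : (starRingEnd ℂ) (e * (starRingEnd ℂ) w) * (starRingEnd ℂ) A - A =
        (starRingEnd ℂ) e * (starRingEnd ℂ) A * (w - zt e A) := by
      unfold zt
      rw [if_neg h, map_mul, Complex.conj_conj]
      have h4 : (starRingEnd ℂ) e * (starRingEnd ℂ) A * (w - e * A / (starRingEnd ℂ) A) =
          (starRingEnd ℂ) e * w * (starRingEnd ℂ) A - (e * (starRingEnd ℂ) e) * A * ((starRingEnd ℂ) A / (starRingEnd ℂ) A) := by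
        ring
      rw [h4, hee, div_self hc]
      ring
    rw [h3, norm_mul, norm_mul, RCLike.norm_conj, RCLike.norm_conj, he, one_mul, mul_pow]

private theorem S_pars {d : ℕ} [NeZero d] (f : (ZMod d)ˣ → ℝ) (c u : (ZMod d)ˣ) :
    ∑ χ : DirichletCharacter ℂ d, ‖SF f χ‖ ^ 2 * ‖ev χ u - zt (ev χ c) (SF f χ)‖ ^ 2 =
      (Fintype.card (ZMod d)ˣ : ℝ) * ∑ x : (ZMod d)ˣ, (f (c * u⁻¹ * x⁻¹) - f x) ^ 2 := by
  rw [← parseval_SF]
  refine Finset.sum_congr rfl fun χ _ => ?_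
  rw [S_refl, ev_mul, ← conj_ev χ u, zt_eq _ _ _ (norm_ev _ _) (norm_ev _ _)]

private theorem S_nsq (z : ℂ) (hz : ‖z‖ = 1) : ‖z - (-1)‖ ^ 2 = 2 + 2 * z.re := by
  have h1 : z.re ^ 2 + z.im ^ 2 = 1 := by
    have h := Complex.sq_norm z
    rw [hz, Complex.normSq_apply] at h
    nlinarith
  rw [Complex.sq_norm, Complex.normSq_apply]
  simp only [Complex.sub_re, Complex.neg_re, Complex.one_re, Complex.sub_im, Complex.neg_im, Complex.one_im]
  nlinarith

private theorem S_sqsub (z w : ℂ) (hz : ‖z‖ = 1) (hw : ‖w‖ = 1) : ‖z ^ 2 - w ^ 2‖ ^ 2 ≤ 4 * ‖z - w‖ ^ 2 := by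
  have h1 : z ^ 2 - w ^ 2 = (z + w) * (z - w) := by ring
  have h2 : ‖z + w‖ ≤ 2 := by
    refine (norm_add_le _ _).trans ?_
    rw [hz, hw]
    norm_num
  rw [h1, norm_mul, mul_pow]
  have h3 : ‖z + w‖ ^ 2 ≤ 2 ^ 2 := pow_le_pow_left₀ (norm_nonneg _) h2 2
  have h4 : 0 ≤ ‖z - w‖ ^ 2 := by positivity
  nlinarith

private theorem S_prod (z w : ℂ) (hz : ‖z‖ = 1) : ‖z * w - 1‖ ^ 2 ≤ 2 * ‖z - (-1)‖ ^ 2 + 2 * ‖w - (-1)‖ ^ 2 := by
  have h1 : z * w - 1 = z * (w - (-1)) + -(z - (-1)) := by ring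
  have h2 : ‖z * w - 1‖ ≤ ‖w - (-1)‖ + ‖z - (-1)‖ := by
    rw [h1]
    refine (norm_add_le _ _).trans ?_
    rw [norm_mul, hz, one_mul, norm_neg]
  have h3 : ‖z * w - 1‖ ^ 2 ≤ (‖w - (-1)‖ + ‖z - (-1)‖) ^ 2 := pow_le_pow_left₀ (norm_nonneg _) h2 2
  nlinarith [sq_nonneg (‖w - (-1)‖ - ‖z - (-1)‖)]

private theorem S_re2 (z : ℂ) (hz : ‖z‖ = 1) (h : z.re < -(1 / 2)) : -(1 / 2) ≤ (z ^ 2).re := by
  have h1 : z.re ^ 2 + z.im ^ 2 = 1 := by
    have h := Complex.sq_norm z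
    rw [hz, Complex.normSq_apply] at h
    nlinarith
  rw [sq, Complex.mul_re]
  nlinarith

private theorem S_sgn {d : ℕ} [NeZero d] (χ : DirichletCharacter ℂ d) (h : ∀ x, ev χ x = 1 ∨ ev χ x = -1) :
    ∃ ψ : (ZMod d)ˣ →* ℤˣ, ∀ x, ev χ x = ((rv ψ x : ℝ) : ℂ) := by
  classical
  have h11 : ((-1 : ℂ) = 1) → False := by
    intro h
    have := congrArg Complex.re h
    norm_num at this
  refine ⟨MonoidHom.mk' (fun x => if ev χ x = 1 then 1 else -1) ?_, ?_⟩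
  · intro a b
    have hab : ev χ (a * b) = ev χ a * ev χ b := ev_mul χ a b
    have hn : ¬ ((-1 : ℂ) = 1) := fun h => h11 h
    rcases h a with ha | ha <;> rcases h b with hb | hb
    · rw [ha, hb, one_mul] at hab
      simp only [ha, hb, hab, if_true, one_mul]
    · rw [ha, hb, one_mul] at hab
      simp only [ha, hb, hab, if_neg hn, if_true, one_mul]
    · rw [ha, hb, mul_one] at hab
      simp only [ha, hb, hab, if_neg hn, if_true, mul_one]
    · rw [ha, hb, neg_one_mul, neg_neg] at hab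
      simp only [ha, hb, hab, if_neg hn, if_true]
      norm_num
  · intro x
    unfold rv
    rw [MonoidHom.mk'_apply]
    rcases h x with hx | hx
    · rw [if_pos hx, hx]
      norm_num
    · rw [if_neg (by rw [hx]; exact h11), hx]
      norm_num

theorem spectrum4 {d : ℕ} [NeZero d] (Y : Finset ℕ) (hY : ∀ y ∈ Y, y.Coprime d) (s : (ZMod d)ˣ → ℝ)
    (hs : ∀ x, s x = 0 ∨ s x = 1) (c : (ZMod d)ˣ) (η3 σ p0 : ℝ) (hσ : 0 < σ) (hp0 : 0 < p0) (h34 : 64 * η3 ≤ σ * p0)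
    (h3 : ∑ y ∈ Y, 1 / (y : ℝ) * av (fun x => |s x - s (c * (ucl d y)⁻¹ * x⁻¹)|) ≤ η3)
    (hF : ∀ χ : DirichletCharacter ℂ d, χ ≠ 1 → ∀ ζ : ℂ, ‖ζ‖ = 1 → -(1 / 2) ≤ ζ.re →
      σ ≤ ∑ y ∈ Y, 1 / (y : ℝ) * ‖χ (y : ZMod d) - ζ‖ ^ 2)
    (ha0 : p0 ≤ av s) (ha1 : av s ≤ 1 - p0) :
    ∃ (ψ : (ZMod d)ˣ →* ℤˣ) (χ : DirichletCharacter ℂ d) (τ : ℝ), (τ = 1 ∨ τ = -1) ∧ ψ ≠ 1 ∧ (∀ x, ev χ x = ((rv ψ x : ℝ) : ℂ)) ∧
      rv ψ c = -1 ∧ ∑ y ∈ Y, 1 / (y : ℝ) * (1 + rv ψ (ucl d y)) ≤ 4 * η3 ∧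
      av (fun x => |2 * s x - 1 - τ * rv ψ x|) ≤ 32 * η3 / σ := by
  classical
  obtain ⟨f, hfdef⟩ : ∃ f : (ZMod d)ˣ → ℝ, f = fun x => 2 * s x - 1 := ⟨_, rfl⟩
  obtain ⟨φ, hφdef⟩ : ∃ φ : ℝ, φ = (Fintype.card (ZMod d)ˣ : ℝ) := ⟨_, rfl⟩
  have hφ : 0 < φ := by
    rw [hφdef]
    exact_mod_cast Fintype.card_pos
  have hfx : ∀ x, f x = 2 * s x - 1 := fun x => by rw [hfdef]
  have hf : ∀ x, f x = 1 ∨ f x = -1 := by
    intro x
    rw [hfx]
    rcases hs x with h | h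
    · right; rw [h]; norm_num
    · left; rw [h]; norm_num
  have hf2 : ∀ x, f x ^ 2 = 1 := by
    intro x
    rcases hf x with h | h <;> rw [h] <;> norm_num
  have hev : ∀ (χ : DirichletCharacter ℂ d) (y : ℕ), y ∈ Y → χ (y : ZMod d) = ev χ (ucl d y) := by
    intro χ y hy
    rw [ev, ucl_val (hY y hy)]
  have hw : ∀ y : ℕ, 0 ≤ 1 / (y : ℝ) := fun y => by positivity
  obtain ⟨a, hadef⟩ : ∃ a : DirichletCharacter ℂ d → ℝ, a = fun χ => ‖SF f χ‖ ^ 2 / φ ^ 2 := ⟨_, rfl⟩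
  obtain ⟨D, hDdef⟩ : ∃ D : DirichletCharacter ℂ d → ℝ, D = fun χ => ∑ y ∈ Y, 1 / (y : ℝ) *
    ‖ev χ (ucl d y) - zt (ev χ c) (SF f χ)‖ ^ 2 := ⟨_, rfl⟩
  have hax : ∀ χ, a χ = ‖SF f χ‖ ^ 2 / φ ^ 2 := fun χ => by rw [hadef]
  have hDx : ∀ χ, D χ = ∑ y ∈ Y, 1 / (y : ℝ) * ‖ev χ (ucl d y) - zt (ev χ c) (SF f χ)‖ ^ 2 := fun χ => by rw [hDdef]
  have ha : ∀ χ, 0 ≤ a χ := fun χ => by rw [hax]; positivity
  have hD : ∀ χ, 0 ≤ D χ := fun χ => by
    rw [hDx]
    exact Finset.sum_nonneg fun y _ => mul_nonneg (hw y) (by positivity)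
  have h1 : ∑ χ, a χ = 1 := by
    rw [hadef, ← Finset.sum_div, parseval_SF, Finset.sum_congr rfl fun x _ => hf2 x, Finset.sum_const, Finset.card_univ,
      nsmul_eq_mul, mul_one, ← hφdef]
    field_simp
  have h2 : ∑ χ, a χ * D χ ≤ 4 * η3 := by
    have e1 : ∀ χ, a χ * D χ = ∑ y ∈ Y, 1 / (y : ℝ) * (1 / φ ^ 2 * (‖SF f χ‖ ^ 2 *
        ‖ev χ (ucl d y) - zt (ev χ c) (SF f χ)‖ ^ 2)) := by
      intro χ
      rw [hax, hDx, Finset.mul_sum]
      refine Finset.sum_congr rfl fun y _ => ?_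
      ring
    rw [Finset.sum_congr rfl fun χ _ => e1 χ, Finset.sum_comm]
    have e2 : ∀ y ∈ Y, ∑ χ : DirichletCharacter ℂ d, 1 / (y : ℝ) * (1 / φ ^ 2 * (‖SF f χ‖ ^ 2 *
        ‖ev χ (ucl d y) - zt (ev χ c) (SF f χ)‖ ^ 2)) =
        4 * (1 / (y : ℝ) * av (fun x => |s x - s (c * (ucl d y)⁻¹ * x⁻¹)|)) := by
      intro y hy
      rw [← Finset.mul_sum, ← Finset.mul_sum, S_pars]
      have e3 : ∀ x, (f (c * (ucl d y)⁻¹ * x⁻¹) - f x) ^ 2 = 4 * |s x - s (c * (ucl d y)⁻¹ * x⁻¹)| := by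
        intro x
        rw [hfx, hfx]
        rcases hs x with h | h <;> rcases hs (c * (ucl d y)⁻¹ * x⁻¹) with h' | h' <;> rw [h, h'] <;> norm_num
      rw [Finset.sum_congr rfl fun x _ => e3 x, ← Finset.mul_sum, av, ← hφdef]
      field_simp
    rw [Finset.sum_congr rfl e2, ← Finset.mul_sum]
    linarith
  -- the value at the principal character
  have hm : a 1 = (2 * av s - 1) ^ 2 := by
    have e1 : SF f 1 = ((φ * (2 * av s - 1) : ℝ) : ℂ) := by
      have e2 : φ * (2 * av s - 1) = ∑ x, f x := by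
        rw [Finset.sum_congr rfl fun x _ => hfx x, Finset.sum_sub_distrib, ← Finset.mul_sum, Finset.sum_const, Finset.card_univ,
          nsmul_eq_mul, mul_one, av, ← hφdef]
        field_simp
      rw [e2, SF, Complex.ofReal_sum]
      refine Finset.sum_congr rfl fun x _ => ?_
      rw [ev, MulChar.one_apply_coe, map_one, mul_one]
    rw [hax, e1, Complex.norm_real, Real.norm_eq_abs, sq_abs, mul_pow]
    field_simp
  have ho : a 1 ≤ 1 - 2 * p0 := by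
    rw [hm]
    nlinarith
  -- a character with small `D` is real with `ζ = -1`
  have hgood : ∀ χ : DirichletCharacter ℂ d, χ ≠ 1 → D χ < σ / 4 → (∀ x, ev χ x = 1 ∨ ev χ x = -1) ∧
      zt (ev χ c) (SF f χ) = -1 := by
    intro χ hχ hDχ
    have hζ := norm_zt (ev χ c) (SF f χ) (norm_ev χ c)
    have hre : (zt (ev χ c) (SF f χ)).re < -(1 / 2) := by
      by_contra hge
      push Not at hge
      have h5 := hF χ hχ _ hζ hge
      have h6 : ∑ y ∈ Y, 1 / (y : ℝ) * ‖χ (y : ZMod d) - zt (ev χ c) (SF f χ)‖ ^ 2 = D χ := by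
        rw [hDx]
        refine Finset.sum_congr rfl fun y hy => ?_
        rw [hev χ y hy]
      linarith
    have hsq : χ ^ 2 = 1 := by
      by_contra hne
      have h5 := hF (χ ^ 2) hne (zt (ev χ c) (SF f χ) ^ 2) (by rw [norm_pow, hζ, one_pow]) (S_re2 _ hζ hre)
      have h6 : ∑ y ∈ Y, 1 / (y : ℝ) * ‖(χ ^ 2) (y : ZMod d) - zt (ev χ c) (SF f χ) ^ 2‖ ^ 2 ≤ 4 * D χ := by
        rw [hDx, Finset.mul_sum]
        refine Finset.sum_le_sum fun y hy => ?_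
        rw [hev (χ ^ 2) y hy, sq χ, ev_mul_char, ← sq]
        have h7 := mul_le_mul_of_nonneg_left (S_sqsub (ev χ (ucl d y)) (zt (ev χ c) (SF f χ)) (norm_ev _ _) hζ) (hw y)
        linarith
      linarith
    have hpm : ∀ x, ev χ x = 1 ∨ ev χ x = -1 := by
      intro x
      have e1 : ev χ x * ev χ x = 1 := by
        rw [← ev_mul_char, ← sq, hsq, ev, MulChar.one_apply_coe]
      exact mul_self_eq_one_iff.mp e1
    refine ⟨hpm, ?_⟩
    -- `SF f χ` is real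
    have hreal : (starRingEnd ℂ) (SF f χ) = SF f χ := by
      unfold SF
      rw [map_sum]
      refine Finset.sum_congr rfl fun x _ => ?_
      rw [map_mul, Complex.conj_ofReal, Complex.conj_conj]
      rcases hpm x with h | h <;> rw [h] <;> simp
    by_cases hA : SF f χ = 0
    · exfalso
      unfold zt at hre
      rw [if_pos hA] at hre
      norm_num at hre
    · have h5 : zt (ev χ c) (SF f χ) = ev χ c := by
        unfold zt
        rw [if_neg hA, hreal, mul_div_assoc, div_self hA, mul_one]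
      rcases hpm c with h | h
      · exfalso
        rw [h5, h] at hre
        norm_num at hre
      · rw [h5, h]
  have hun : ∀ χ₁ χ₂ : DirichletCharacter ℂ d, χ₁ ≠ 1 → χ₂ ≠ 1 → D χ₁ < σ / 4 → D χ₂ < σ / 4 → χ₁ = χ₂ := by
    intro χ₁ χ₂ hn1 hn2 hd1 hd2
    obtain ⟨g1, g2⟩ := hgood χ₁ hn1 hd1
    obtain ⟨g3, g4⟩ := hgood χ₂ hn2 hd2
    by_contra hne
    have hne' : χ₁ * χ₂ ≠ 1 := by
      intro h
      apply hne
      have h5 : χ₂ * χ₂ = 1 := by
        ext x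
        have h6 : ev (χ₂ * χ₂) x = 1 := by
          rw [ev_mul_char]
          rcases g3 x with h7 | h7 <;> rw [h7] <;> norm_num
        rw [MulChar.one_apply_coe]
        exact h6
      calc χ₁ = χ₁ * (χ₂ * χ₂) := by rw [h5, mul_one]
        _ = χ₂ := by rw [← mul_assoc, h, one_mul]
    have h5 := hF _ hne' 1 norm_one (by norm_num)
    have h6 : ∑ y ∈ Y, 1 / (y : ℝ) * ‖(χ₁ * χ₂) (y : ZMod d) - 1‖ ^ 2 ≤ 2 * D χ₁ + 2 * D χ₂ := by
      rw [hDx, hDx, g2, g4, Finset.mul_sum, Finset.mul_sum, ← Finset.sum_add_distrib]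
      refine Finset.sum_le_sum fun y hy => ?_
      rw [hev _ y hy, ev_mul_char]
      have h7 := mul_le_mul_of_nonneg_left (S_prod (ev χ₁ (ucl d y)) (ev χ₂ (ucl d y)) (norm_ev _ _)) (hw y)
      linarith
    linarith
  obtain ⟨χ, hχ1, hχD, hχa⟩ := S_ind a D ha hD h1 1 η3 σ p0 hσ hp0 h34 h2 ho hun
  obtain ⟨hpm, hζ⟩ := hgood χ hχ1 hχD
  obtain ⟨ψ, hψ⟩ := S_sgn χ hpm
  have hDrv : D χ = 2 * ∑ y ∈ Y, 1 / (y : ℝ) * (1 + rv ψ (ucl d y)) := by
    rw [hDx, Finset.mul_sum]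
    refine Finset.sum_congr rfl fun y _ => ?_
    rw [hζ, S_nsq _ (norm_ev _ _), hψ, Complex.ofReal_re]
    ring
  obtain ⟨r, hrdef⟩ : ∃ r : ℝ, r = av (fun x => f x * rv ψ x) := ⟨_, rfl⟩
  obtain ⟨m, hmdef⟩ : ∃ m : ℝ, m = av f := ⟨_, rfl⟩
  have hm2 : m = 2 * av s - 1 := by
    rw [hmdef, show f = (fun x => 2 * s x + (-1)) from funext fun x => by rw [hfx]; ring, av_add, av_mul_left, av_const]
    ring
  have hSF : SF f χ = ((φ * r : ℝ) : ℂ) := by
    rw [hrdef, av, ← hφdef, mul_div_cancel₀ _ hφ.ne', SF, Complex.ofReal_sum]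
    refine Finset.sum_congr rfl fun x _ => ?_
    rw [hψ, Complex.conj_ofReal, Complex.ofReal_mul]
  have har : a χ = r ^ 2 := by
    rw [hax, hSF, Complex.norm_real, Real.norm_eq_abs, sq_abs, mul_pow]
    field_simp
  have ham : a 1 = m ^ 2 := by rw [hm, hm2]
  rw [har, ham] at hχa
  obtain ⟨ε4, hε4⟩ : ∃ ε4 : ℝ, ε4 = 16 * η3 / σ := ⟨_, rfl⟩
  rw [← hε4] at hχa
  have hε : ε4 ≤ p0 / 4 := by
    rw [hε4, div_le_iff₀ hσ]
    linarith
  have hp1 : p0 ≤ 1 / 2 := by linarith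
  -- the averages over the two cosets
  have hb : ∀ t : ℝ, (t = 1 ∨ t = -1) → |m + t * r| ≤ 1 := by
    intro t ht
    have e1 : m + t * r = av (fun x => f x + t * (f x * rv ψ x)) := by
      rw [av_add, av_mul_left, ← hrdef, ← hmdef]
    have e2 : ∀ u : ℝ, (u = 1 ∨ u = -1) → u * (m + t * r) ≤ 1 := by
      intro u hu
      rw [e1, ← av_mul_left]
      have e3 : ∀ x, u * (f x + t * (f x * rv ψ x)) ≤ 1 + t * rv ψ x := by
        intro x
        rcases hf x with h | h <;> rcases rv_val ψ x with h' | h' <;> rcases ht with h'' | h'' <;> rcases hu with h''' | h''' <;>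
          rw [h, h', h'', h'''] <;> norm_num
      refine (av_mono e3).trans ?_
      rw [av_add, av_const, av_mul_left]
      have e4 : av (fun x => rv ψ x) = 0 := by
        have e5 : ((av (fun x => rv ψ x) : ℝ) : ℂ) = 0 := by
          have e6 : ∑ x : (ZMod d)ˣ, ev χ x = 0 := by
            have e7 : ∃ g, ev χ g ≠ 1 := by
              by_contra hne
              push Not at hne
              apply hχ1
              ext x
              rw [MulChar.one_apply_coe]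
              exact hne x
            obtain ⟨g, hg⟩ := e7
            have e8 : ev χ g * ∑ x : (ZMod d)ˣ, ev χ x = ∑ x : (ZMod d)ˣ, ev χ x := by
              rw [Finset.mul_sum, ← Equiv.sum_comp (Equiv.mulLeft g) (fun x => ev χ x)]
              refine Finset.sum_congr rfl fun x _ => ?_
              rw [Equiv.coe_mulLeft, ev_mul]
            have e9 : (ev χ g - 1) * ∑ x : (ZMod d)ˣ, ev χ x = 0 := by
              rw [sub_mul, one_mul, e8, sub_self]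
            rcases mul_eq_zero.mp e9 with h | h
            · exact absurd (sub_eq_zero.mp h) hg
            · exact h
          unfold av
          push_cast
          rw [← Finset.sum_congr rfl fun x _ => hψ x, e6, zero_div]
        exact_mod_cast e5
      rw [e4]
      linarith
    rw [abs_le]
    have e3 := e2 1 (Or.inl rfl)
    have e4 := e2 (-1) (Or.inr rfl)
    constructor <;> linarith
  have hb1 := hb 1 (Or.inl rfl)
  have hb2 := hb (-1) (Or.inr rfl)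
  have hb1' : (m + r) ^ 2 ≤ 1 := by
    have e1 : |m + 1 * r| ^ 2 ≤ 1 ^ 2 := pow_le_pow_left₀ (abs_nonneg _) hb1 2
    rw [sq_abs] at e1
    linarith
  have hb2' : (m - r) ^ 2 ≤ 1 := by
    have e1 : |m + (-1) * r| ^ 2 ≤ 1 ^ 2 := pow_le_pow_left₀ (abs_nonneg _) hb2 2
    rw [sq_abs] at e1
    nlinarith
  have hm3 : |m| ≤ 1 - 2 * p0 := by
    rw [hm2, abs_le]
    constructor <;> linarith
  have hm3' : m ^ 2 ≤ (1 - 2 * p0) ^ 2 := by
    rw [← sq_abs]
    exact pow_le_pow_left₀ (abs_nonneg _) hm3 2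
  -- `|r| ≥ 1 - 2 ε4`
  have hε0 : 0 ≤ ε4 := by nlinarith
  have hr0 : 1 - 2 * ε4 ≤ |r| := by
    -- `(m + r)² ≥ 1 - 2 ε4`, `(m - r)² ≥ 1 - 2 ε4`, and `|m| < |r|`
    have c1 : 1 - 2 * ε4 ≤ (m + r) ^ 2 := by nlinarith
    have c2 : 1 - 2 * ε4 ≤ (m - r) ^ 2 := by nlinarith
    have c3 : |m| < |r| := by
      have c4 : m ^ 2 < r ^ 2 := by nlinarith
      exact sq_lt_sq.mp c4
    have c5 : (1 - 2 * ε4) ≤ |m + r| := by
      have e1 : |m + r| ≤ 1 := by simpa using hb1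
      have e2 : (m + r) ^ 2 = |m + r| ^ 2 := (sq_abs _).symm
      have e3 := abs_nonneg (m + r)
      nlinarith
    have c6 : (1 - 2 * ε4) ≤ |m - r| := by
      have e1 : |m - r| ≤ 1 := by
        have := hb2
        rwa [show m + -1 * r = m - r by ring] at this
      have e2 : (m - r) ^ 2 = |m - r| ^ 2 := (sq_abs _).symm
      have e3 := abs_nonneg (m - r)
      nlinarith
    -- the sum of the two absolute values is `2 |r|` when `|m| ≤ |r|`
    have c7 : |m + r| + |m - r| ≤ 2 * |r| := by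
      rcases le_total 0 r with hr | hr
      · rw [abs_of_nonneg hr] at c3 ⊢
        obtain ⟨l1, l2⟩ := abs_lt.mp c3
        rw [abs_of_nonneg (by linarith), abs_of_nonpos (by linarith)]
        linarith
      · rw [abs_of_nonpos hr] at c3 ⊢
        obtain ⟨l1, l2⟩ := abs_lt.mp c3
        rw [abs_of_nonpos (by linarith), abs_of_nonneg (by linarith)]
        linarith
    linarith
  have hr1 : |r| ≤ 1 := by
    have e1 : |r| ^ 2 ≤ 1 := by
      rw [sq_abs]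
      nlinarith [sq_nonneg m]
    nlinarith [abs_nonneg r]
  have hr2 : 1 / 2 ≤ r ^ 2 := by
    rw [← sq_abs]
    nlinarith
  have hD8 : D χ ≤ 8 * η3 := by
    have h11 : a χ * D χ ≤ 4 * η3 := by
      refine le_trans ?_ h2
      exact Finset.single_le_sum (f := fun j => a j * D j) (fun j _ => mul_nonneg (ha j) (hD j)) (mem_univ χ)
    rw [har] at h11
    have h14 : 1 / 2 * D χ ≤ r ^ 2 * D χ := mul_le_mul_of_nonneg_right hr2 (hD χ)
    linarith
  have hsum : ∑ y ∈ Y, 1 / (y : ℝ) * (1 + rv ψ (ucl d y)) ≤ 4 * η3 := by linarith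
  have hkey : ∀ τ : ℝ, (τ = 1 ∨ τ = -1) → τ * r = |r| → av (fun x => |2 * s x - 1 - τ * rv ψ x|) ≤ 32 * η3 / σ := by
    intro τ hτ hτr
    have e1 : ∀ x, |2 * s x - 1 - τ * rv ψ x| = 1 + (-τ) * (f x * rv ψ x) := by
      intro x
      have e2 : 2 * s x - 1 = f x := (hfx x).symm
      rw [e2]
      rcases hf x with h | h <;> rcases rv_val ψ x with h' | h' <;> rcases hτ with h'' | h'' <;> rw [h, h', h''] <;> norm_num
    have e3 : av (fun x => |2 * s x - 1 - τ * rv ψ x|) = 1 - |r| := by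
      rw [show (fun x => |2 * s x - 1 - τ * rv ψ x|) = (fun x => 1 + (-τ) * (f x * rv ψ x)) from funext e1,
        av_add, av_const, av_mul_left, ← hrdef]
      linarith
    rw [e3]
    have e4 : 32 * η3 / σ = 2 * ε4 := by
      rw [hε4]
      ring
    rw [e4]
    linarith
  have hψ1 : ψ ≠ 1 := by
    intro h
    apply hχ1
    ext x
    rw [MulChar.one_apply_coe]
    have e1 := hψ x
    rw [h] at e1
    unfold rv at e1
    rw [MonoidHom.one_apply] at e1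
    unfold ev at e1
    rw [e1]
    norm_num
  have hc : rv ψ c = -1 := by
    have hre : SF f χ ≠ 0 := by
      rw [hSF]
      intro h
      have h5 : φ * r = 0 := by exact_mod_cast h
      rcases mul_eq_zero.mp h5 with h6 | h6
      · exact hφ.ne' h6
      · rw [h6] at hr2
        norm_num at hr2
    unfold zt at hζ
    rw [if_neg hre, hSF, Complex.conj_ofReal, ← hSF, mul_div_assoc, div_self hre, mul_one, hψ] at hζ
    exact_mod_cast hζ
  rcases le_total 0 r with h0 | h0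
  · exact ⟨ψ, χ, 1, Or.inl rfl, hψ1, hψ, hc, hsum, hkey 1 (Or.inl rfl) (by rw [one_mul, abs_of_nonneg h0])⟩
  · exact ⟨ψ, χ, -1, Or.inr rfl, hψ1, hψ, hc, hsum, hkey (-1) (Or.inr rfl) (by rw [abs_of_nonpos h0]; ring)⟩

end Pool.Agent.Lib.MP_42948a_nt.FP
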