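import Pool.Agent.Lib.MP_42948a_nt.TF.FV
import Pool.Agent.Lib.MP_42948a_nt.FR.M
import Pool.Agent.Lib.MP_42948a_nt.FP.M

/-!
# Exactly four primes at the exponent `9/4 + ε`
-/

namespace Pool.Agent.Lib.MP_42948a_nt.FP

open Finset Pool.Agent.Lib.MP_42948a_nt.OA Pool.Agent.Lib.MP_42948a_nt.TQ Pool.Agent.Lib.MP_42948a_nt.TF

theorem far : Far := by
  intro κ hκ hκ1
  obtain ⟨s0, hs0, h⟩ := FR.far κ hκ hκ1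
  refine ⟨s0, hs0, fun s hs hs1 => ?_⟩
  obtain ⟨σ, hσ, d0, hd0⟩ := h s hs hs1
  refine ⟨σ, hσ, d0, fun d hd _ χ hχ ζ hζ hre => ?_⟩
  refine (hd0 d hd χ hχ ζ hζ hre).trans ?_
  have h1 : ∀ p : ℕ, EK.rw1 p * ‖χ (p : ZMod d) - ζ‖ ^ 2 = 1 / (p : ℝ) * ‖χ (p : ZMod d) - ζ‖ ^ 2 := fun p => rfl
  rw [sum_congr rfl fun p _ => h1 p]
  exact sum_le_sum_of_subset_of_nonneg (EK_PW_subset s (1 / 4 + κ)) (fun p _ _ => mul_nonneg (by positivity) (by positivity))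

/-- exactly four primes in `(d^δ, d^(1+ε)]`, product `≤ d^(9/4+ε)`, every modulus `d ≥ d0`, every reduced class -/
theorem four (ε : ℝ) (hε : 0 < ε) : ∃ δ : ℝ, 0 < δ ∧ ∃ d0 : ℕ, ∀ d : ℕ, d0 ≤ d → ∀ c : (ZMod d)ˣ, ∃ n : ℕ,
    (n : ℝ) ≤ (d : ℝ) ^ (9 / 4 + ε) ∧ (∀ q : ℕ, q.Prime → q ∣ n → (d : ℝ) ^ δ < q ∧ (q : ℝ) ≤ (d : ℝ) ^ (1 + ε)) ∧
      ArithmeticFunction.cardFactors n = 4 ∧ n ≠ 0 ∧ (n : ZMod d) = (c : ZMod d) := four_of far ε hε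

end Pool.Agent.Lib.MP_42948a_nt.FP
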